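import Mathlib
import Pool.Agent.Y156.L.Props
import Pool.Agent.Y1.CT.UnrelDefs

/-!
# Theories relative to arbitrary schemes: generalized eigenspaces and conditions on the eigenvalues
-/

set_option autoImplicit false

namespace Pool.Agent.Q64.L

open Polynomial Pool.Agent.Y156.L Pool.Agent.Y1.CT

/-- The complex roots of `χ` are unrelated to the fields `K i`. -/
def UnrelatedRoots {I : Type} (K : I → Type) [∀ i, Field (K i)] (χ : ℚ[X]) : Prop :=
  ∀ ρ : ℂ, aeval ρ χ = 0 → Unrelated K ρ

/-- The complex roots of `χ` lie, up to powers, in a group generated by the nonzero elements of the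
number field `E` and `r` numbers. -/
def RootsRank (E : IntermediateField ℚ ℂ) (r : ℕ) (χ : ℚ[X]) : Prop :=
  GroupOfRank E r {ρ : ℂ | aeval ρ χ = 0}

section

variable {K : Type} [Field K] {A : AbelianData K}

/-- On each group `H^i(A × U, j)` the Frobenius endomorphism of `U` satisfies a nonzero rational
polynomial with the property `P`. -/
def EigenvaluesIn (P : ℚ[X] → Prop) (T : RelData A) : Prop :=
  ∀ i j : ℤ, ∃ χ : ℚ[X], χ ≠ 0 ∧ P χ ∧ ∀ m, T.DegM i j m → aeval T.frobM χ m = 0

/-- The Frobenius endomorphism of `A` preserves the degrees. -/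
def PreservesDegree (T : RelData A) : Prop :=
  ∀ (i j : ℤ) (m : T.M), T.DegM i j m → T.DegM i j (T.app A.frob m)

variable (Q : ℕ) (T : RelData A)

/-- The Frobenius endomorphism of `A × U` minus `Q ^ j`. -/
noncomputable def shiftM (j : ℤ) : Module.End ℚ T.M :=
  T.act A.frob * T.frobM - algebraMap ℚ (Module.End ℚ T.M) ((Q : ℚ) ^ j)

/-- The Frobenius endomorphism of `U` minus `Q ^ j`. -/
noncomputable def shiftN (j : ℤ) : Module.End ℚ T.N :=
  T.frobN - algebraMap ℚ (Module.End ℚ T.N) ((Q : ℚ) ^ j)

/-- The element `m` of `H^i(A × U, j)` lies in the generalized eigenspace of the Frobenius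
endomorphism of `A × U` for the eigenvalue `Q ^ j`. -/
def GenM (i j : ℤ) (m : T.M) : Prop := T.DegM i j m ∧ ∃ N : ℕ, (shiftM Q T j ^ N) m = 0

/-- The element `n` of `H^i(U, j)` lies in the generalized eigenspace of the Frobenius endomorphism of
`U` for the eigenvalue `Q ^ j`. -/
def GenN (i j : ℤ) (n : T.N) : Prop := T.DegN i j n ∧ ∃ N : ℕ, (shiftN Q T j ^ N) n = 0

/-- The eigenvalue `Q ^ j` of the Frobenius endomorphism of `A × U` on `H^i(A × U, j)` is semisimple. -/
def SemisimpleM (i j : ℤ) : Prop := ∀ m, GenM Q T i j m → T.InvM Q i j m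

/-- The eigenvalue `Q ^ j` of the Frobenius endomorphism of `U` on `H^i(U, j)` is semisimple. -/
def SemisimpleN (i j : ℤ) : Prop := ∀ n, GenN Q T i j n → T.InvN Q i j n

end

end Pool.Agent.Q64.L
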