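import Mathlib
import Pool.Agent.Q64.L.Defs

/-!
# The statements: singular, open and smooth varieties
-/

set_option autoImplicit false

namespace Pool.Agent.Q64.L

open Polynomial Pool.Agent.Y156.L

section

variable {K : Type} [Field K] {A : AbelianData K}

/-- `T` is a theory relative to the scheme `U` over the field with `Q` elements with the formal
properties `IsRel`; the Frobenius endomorphism of `A` preserves the degrees; and the Frobenius
endomorphism of `U` satisfies nonzero rational polynomials with the property `P`. -/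
structure IsTheory (P : ℚ[X] → Prop) (Q : ℕ) (T : RelData A) : Prop where
  rel : IsRel Q T
  degree : PreservesDegree T
  eigenvalues : EigenvaluesIn P T

variable {T R : RelData A} (ρ : Regulator T R) (Q : ℕ)

/-- The statement `TB(X)` for the homology groups `H_a(X, b)` of `X`, which are the groups of
bidegree `(-a, -b)` of the theories: the regulator is injective, it is onto the Frobenius invariants,
and the corresponding eigenvalue of Frobenius is semisimple. -/
def TateBeilinson (a b : ℤ) : Prop :=
  InjectiveN ρ (-a) (-b) ∧ OntoN ρ Q (-a) (-b) ∧ SemisimpleN Q R (-a) (-b)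

/-- The statement `TB(A × X)` for the homology groups `H_a(A × X, b)` of `A × X`, which are the groups
of bidegree `(2 dim A - a, dim A - b)` of the theories. -/
def TateBeilinsonTimes (a b : ℤ) : Prop :=
  InjectiveM ρ (2 * A.dim - a) (A.dim - b) ∧ OntoM ρ Q (2 * A.dim - a) (A.dim - b) ∧
    SemisimpleM Q R (2 * A.dim - a) (A.dim - b)

/-- The cycle map `cl_b` from `CH_b(X)` to the Frobenius invariants of `H_(2 b)(X, b)` is
bijective. -/
def ClBijective (b : ℤ) : Prop := InjectiveN ρ (-(2 * b)) (-b) ∧ OntoN ρ Q (-(2 * b)) (-b)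

/-- The cycle map `cl_b` from `CH_b(A × X)` to the Frobenius invariants of `H_(2 b)(A × X, b)` is
bijective. -/
def ClBijectiveTimes (b : ℤ) : Prop :=
  InjectiveM ρ (2 * A.dim - 2 * b) (A.dim - b) ∧ OntoM ρ Q (2 * A.dim - 2 * b) (A.dim - b)

/-- The cycle map `cl_b` from `CH_b(X)` to the Frobenius invariants of `H_(2 b)(X, b)` is onto. -/
def ClOnto (b : ℤ) : Prop := OntoN ρ Q (-(2 * b)) (-b)

/-- The cycle map `cl_b` from `CH_b(A × X)` to the Frobenius invariants of `H_(2 b)(A × X, b)` is
onto. -/
def ClOntoTimes (b : ℤ) : Prop := OntoM ρ Q (2 * A.dim - 2 * b) (A.dim - b)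

/-- The statement `B^i(U)`: the cycle map in codimension `i` is bijective onto the Frobenius
invariants, and the eigenvalue `Q ^ i` of Frobenius on the cohomology of degree `2 i` is
semisimple. -/
def StatementB (i : ℤ) : Prop :=
  InjectiveN ρ (2 * i) i ∧ OntoN ρ Q (2 * i) i ∧ SemisimpleN Q R (2 * i) i

/-- The statement `B^i(A × U)`. -/
def StatementBTimes (i : ℤ) : Prop :=
  InjectiveM ρ (2 * i) i ∧ OntoM ρ Q (2 * i) i ∧ SemisimpleM Q R (2 * i) i

end

/-- `TBReduces P q F`: for every abelian variety `A` as in `IsAbelian` there are finitely many products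
`D t` of `c t` divisor classes on `A`, such that for every scheme `X`, with the motivic homology
`T` (tensored with `ℚ_ℓ`), the `ℓ`-adic homology `R` and the regulator `ρ`, the Frobenius
endomorphism satisfying polynomials with the property `P`: the Kunneth formula holds for `T` and
`R`, and for all `a`, `b` the Tate-Beilinson conjecture `TB` holds for `H_a(A × X, b)` if and only if
it holds for all the `H_(a - 2 l)(X, b - l)`, `0 ≤ l ≤ dim A`. -/
def TBReduces (P : ℚ[X] → Prop) (q : ℕ) {I : Type} (F : I → ℤ[X]) : Prop :=
  ∀ (K : Type) [Field K] [CharZero K] (A : AbelianData K) (s : ℕ), IsAbelian A q s F →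
    ∃ (J : Type) (_ : Fintype J) (c : J → ℕ) (D : J → A.CH), IsFamily A c D ∧
      ∀ (T R : RelData A) (ρ : Regulator T R), IsTheory P (q ^ s) T → T.IsPure (q ^ s) →
        IsTheory P (q ^ s) R → IsRegulator ρ →
          T.Kunneth (q ^ s) c D ∧ R.Kunneth (q ^ s) c D ∧
          ∀ a b : ℤ, TateBeilinsonTimes ρ (q ^ s) a b ↔
            ∀ l : ℕ, l ≤ A.dim → TateBeilinson ρ (q ^ s) (a - 2 * l) (b - l)

/-- `ClReduces P q F`: for every abelian variety `A` as in `IsAbelian` there are finitely many products
`D t` of `c t` divisor classes on `A`, such that for every variety `X`, with the Chow groups `T`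
(tensored with `ℚ_ℓ`), the `ℓ`-adic homology `R` and the cycle map `ρ`, the Frobenius endomorphism
satisfying polynomials with the property `P`: the Kunneth formula holds for `T` and `R`, and for all
`b` the cycle map `cl_b` is bijective for `A × X` if and only if the cycle maps `cl_(b - l)`,
`0 ≤ l ≤ dim A`, are bijective for `X`. -/
def ClReduces (P : ℚ[X] → Prop) (q : ℕ) {I : Type} (F : I → ℤ[X]) : Prop :=
  ∀ (K : Type) [Field K] [CharZero K] (A : AbelianData K) (s : ℕ), IsAbelian A q s F →
    ∃ (J : Type) (_ : Fintype J) (c : J → ℕ) (D : J → A.CH), IsFamily A c D ∧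
      ∀ (T R : RelData A) (ρ : Regulator T R), IsTheory P (q ^ s) T → T.IsPure (q ^ s) →
        IsTheory P (q ^ s) R → IsRegulator ρ →
          T.Kunneth (q ^ s) c D ∧ R.Kunneth (q ^ s) c D ∧
          ∀ b : ℤ, ClBijectiveTimes ρ (q ^ s) b ↔
            ∀ l : ℕ, l ≤ A.dim → ClBijective ρ (q ^ s) (b - l)

/-- `ClOntoReduces P q F`: for every abelian variety `A` as in `IsAbelian` there are finitely many
products `D t` of `c t` divisor classes on `A`, such that for every variety `X` with the `ℓ`-adic
homology `R`, the Frobenius endomorphism satisfying polynomials with the property `P`: the Kunneth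
formula holds for the Frobenius invariants of `R`, and for the Chow groups `T` (tensored with `ℚ_ℓ`)
with the cycle map `ρ` and all `b` the cycle map `cl_b` is onto the Frobenius invariants for `A × X`
if and only if the cycle maps `cl_(b - l)`, `0 ≤ l ≤ dim A`, are so for `X`. -/
def ClOntoReduces (P : ℚ[X] → Prop) (q : ℕ) {I : Type} (F : I → ℤ[X]) : Prop :=
  ∀ (K : Type) [Field K] [CharZero K] (A : AbelianData K) (s : ℕ), IsAbelian A q s F →
    ∃ (J : Type) (_ : Fintype J) (c : J → ℕ) (D : J → A.CH), IsFamily A c D ∧
      ∀ R : RelData A, IsTheory P (q ^ s) R → R.Kunneth (q ^ s) c D ∧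
        ∀ (T : RelData A) (ρ : Regulator T R), IsRel (q ^ s) T → IsRegulator ρ →
          ∀ b : ℤ, ClOntoTimes ρ (q ^ s) b ↔
            ∀ l : ℕ, l ≤ A.dim → ClOnto ρ (q ^ s) (b - l)

/-- `SemisimpleReduces P q F`: for every abelian variety `A` as in `IsAbelian`, every variety `X` with
the `ℓ`-adic homology `R`, the Frobenius endomorphism satisfying polynomials with the property `P`,
and all `a`, `b`: the eigenvalue `1` of Frobenius on `H_a(A × X, b)` (the group of bidegree
`(2 dim A - a, dim A - b)`) is semisimple if and only if the eigenvalues `1` of Frobenius on the groups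
`H_(a - 2 l)(X, b - l)`, `0 ≤ l ≤ dim A`, are semisimple. -/
def SemisimpleReduces (P : ℚ[X] → Prop) (q : ℕ) {I : Type} (F : I → ℤ[X]) : Prop :=
  ∀ (K : Type) [Field K] [CharZero K] (A : AbelianData K) (s : ℕ), IsAbelian A q s F →
    ∀ R : RelData A, IsTheory P (q ^ s) R → ∀ a b : ℤ,
      SemisimpleM (q ^ s) R (2 * A.dim - a) (A.dim - b) ↔
        ∀ l : ℕ, l ≤ A.dim → SemisimpleN (q ^ s) R (-(a - 2 * l)) (-(b - l))

/-- `BReduces P q F`: for every abelian variety `A` as in `IsAbelian` there are finitely many products
`D t` of `c t` divisor classes on `A`, such that for every smooth variety `U`, proper or not, with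
the Chow groups `T` (tensored with `ℚ_ℓ`), the `ℓ`-adic cohomology `R` and the cycle map `ρ`, the
Frobenius endomorphism satisfying polynomials with the property `P`: the Kunneth formula holds for `T`
and `R`, and for all `i` the statement `B^i(A × U)` is true if and only if the statements
`B^(i - k)(U)`, `0 ≤ k ≤ dim A`, are true. -/
def BReduces (P : ℚ[X] → Prop) (q : ℕ) {I : Type} (F : I → ℤ[X]) : Prop :=
  ∀ (K : Type) [Field K] [CharZero K] (A : AbelianData K) (s : ℕ), IsAbelian A q s F →
    ∃ (J : Type) (_ : Fintype J) (c : J → ℕ) (D : J → A.CH), IsFamily A c D ∧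
      ∀ (T R : RelData A) (ρ : Regulator T R), IsTheory P (q ^ s) T → T.IsPure (q ^ s) →
        IsTheory P (q ^ s) R → IsRegulator ρ →
          T.Kunneth (q ^ s) c D ∧ R.Kunneth (q ^ s) c D ∧
          ∀ i : ℤ, StatementBTimes ρ (q ^ s) i ↔
            ∀ k : ℕ, k ≤ A.dim → StatementB ρ (q ^ s) (i - k)

/-- `TateHigherReduces P q F`: for every abelian variety `A` as in `IsAbelian` there are finitely many
products `D t` of `c t` divisor classes on `A`, such that for every smooth variety `U`, proper or
not, with the `ℓ`-adic cohomology `R`, the Frobenius endomorphism satisfying polynomials with the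
property `P`: the Kunneth formula holds for the Frobenius invariants of `R`, and for the higher Chow
groups `T` (tensored with `ℚ_ℓ`) with the regulator `ρ` and all `i`, `j` the map `c^(i, j)` is onto
the Frobenius invariants for `A × U` if and only if the maps `c^(i - 2 k, j - k)`, `0 ≤ k ≤ dim A`,
are so for `U`. -/
def TateHigherReduces (P : ℚ[X] → Prop) (q : ℕ) {I : Type} (F : I → ℤ[X]) : Prop :=
  ∀ (K : Type) [Field K] [CharZero K] (A : AbelianData K) (s : ℕ), IsAbelian A q s F →
    ∃ (J : Type) (_ : Fintype J) (c : J → ℕ) (D : J → A.CH), IsFamily A c D ∧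
      ∀ R : RelData A, IsTheory P (q ^ s) R → R.Kunneth (q ^ s) c D ∧
        ∀ (T : RelData A) (ρ : Regulator T R), IsRel (q ^ s) T → IsRegulator ρ →
          ∀ i j : ℤ, OntoM ρ (q ^ s) i j ↔
            ∀ k : ℕ, k ≤ A.dim → OntoN ρ (q ^ s) (i - 2 * k) (j - k)

end Pool.Agent.Q64.L
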