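import Mathlib
import Pool.Agent.Q64.L.Defs
import Pool.Agent.W484.HS.Abs

/-!
# The condition on the eigenvalues
-/

set_option autoImplicit false

namespace Pool.Agent.Q64.L

open Polynomial Pool.Agent.W484.HS

/-- The numbers with the property `P` have no relations with the roots of the `F i`. -/
structure Good (P : ℚ[X] → Prop) (q : ℕ) {I : Type} (F : I → ℤ[X]) : Prop where
  monic : ∀ i, (F i).Monic
  one : P (X - 1)
  coeff : ∀ χ, P χ → χ.coeff 0 ≠ 0
  pair : ∀ (K : Type) [Field K] [CharZero K] (s : ℕ), 0 < s → ∀ χ : ℚ[X], χ ≠ 0 →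
    P χ → ∀ ρ : K, aeval ρ χ = 0 →
      ExactPairK (fun z : {z : K // ∃ i, aeval z (F i) = 0} => (z : K) ^ s) ((q : K) ^ s) ρ

end Pool.Agent.Q64.L
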