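import Mathlib
import Pool.Agent.Q64.L.Pairs
import Pool.Agent.Y156.L.Core

/-!
# The Kunneth formula for generalized eigenvectors
-/

set_option autoImplicit false
set_option linter.unusedSectionVars false

namespace Pool.Agent.Q64.L

open Module Polynomial Pool.Agent.Y156.L Pool.Agent.W484.HS

variable {K : Type} [Field K] [CharZero K] {A : AbelianData K}

/-- **Existence of a good basis.** -/
theorem exists_good_basis {P : ℚ[X] → Prop} {q : ℕ} (hq : 1 < q) {I : Type} {F : I → ℤ[X]}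
    (hG : Good P q F) {s : ℕ} (hA : IsAbelian A q s F) :
    ∃ (n : ℕ) (b : Basis (Fin n) K A.H) (α : Fin n → K),
      (∀ t, A.frobH (b t) = α t • b t) ∧ (∀ t, IsIntegral ℚ (α t)) ∧ (∀ t, α t ≠ 0) ∧
      ∀ (χ : ℚ[X]), χ ≠ 0 → P χ → ∀ ρ : K, aeval ρ χ = 0 →
        ∀ t (c : ℤ), α t * ρ = ((q ^ s : ℕ) : K) ^ c →
          ∃ l : ℕ, α t = ((q ^ s : ℕ) : K) ^ l ∧ b t ∈ NK A l := by
  have hfin := hA.finite
  have hs := hA.pos
  have hq0 : q ≠ 0 := by omega
  let val : {z : K // ∃ i, aeval z (F i) = 0} → K := fun z => (z : K) ^ s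
  have hU : Submodule.span K {v : A.H | v ∈ A.H1 ∧ ∃ y, A.frobH v = val y • v} = A.H1 := by
    refine Eq.trans ?_ hA.spanned
    congr 1
    ext v
    constructor
    · rintro ⟨h1, ⟨z, i, hz⟩, h2⟩
      exact ⟨h1, i, z, hz, h2⟩
    · rintro ⟨h1, i, z, hz, h2⟩
      exact ⟨h1, ⟨z, i, hz⟩, h2⟩
  obtain ⟨n, b, α, hb⟩ := Pool.Agent.W484.CH.exists_basis A.frobH val A.H1 hU hA.generated
  have hQ : ((q ^ s : ℕ) : K) = (q : K) ^ s := by push_cast; rfl
  have hQ0 : (q : K) ^ s ≠ 0 := pow_ne_zero _ (by exact_mod_cast hq0)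
  refine ⟨n, b, α, fun t => (hb t).1, fun t => ?_, fun t => ?_, ?_⟩
  · obtain ⟨-, L, -, -, hL⟩ := hb t
    rw [hL]
    clear hL
    induction L with
    | nil => simpa using isIntegral_one
    | cons a L ih =>
      rw [List.map_cons, List.prod_cons]
      refine IsIntegral.mul ?_ ih
      obtain ⟨i, hi⟩ := a.2.2
      have h1 : IsIntegral ℤ (a.2 : K) := ⟨F i, hG.monic i, hi⟩
      exact (h1.tower_top (A := ℚ)).pow s
  · intro h0
    refine b.ne_zero t (hA.nondeg _ fun a => ?_)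
    have h1 := hA.tr_frob (b t * a)
    rw [map_mul, (hb t).1, h0, zero_smul, zero_mul, map_zero] at h1
    exact (mul_eq_zero.1 h1.symm).resolve_left (pow_ne_zero _ (by rw [hQ]; exact hQ0))
  · intro χ hχ hrank ρ hρ t c hc
    obtain ⟨-, L, hL1, hL2, hL3⟩ := hb t
    have hpair := hG.pair K s hs χ hχ hrank ρ hρ
    have h1 := Pool.Agent.W484.CH.list_graded A.frobH val ((q : K) ^ s) ρ hQ0 hpair (NK A)
      one_mem_NK
      (fun a ha l b hb => by
        rw [add_comm l 1]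
        exact mul_mem_NK ha hb)
      (A.H1 : Set A.H) (fun a ha b hb => hA.anticomm a ha b hb)
      (fun a ha b hb y y' h2 h3 h4 => by
        apply mem_NK_one
        refine hA.tate (a * b) (Submodule.mul_mem_mul ha hb) ?_
        rw [map_mul, h2, h3, smul_mul_smul_comm, h4, hQ])
      L.length c 1 one_pos L rfl hL1 (by rw [pow_one, pow_one, ← hL3, ← hQ]; exact hc)
    obtain ⟨l, -, h2, h3⟩ := h1
    refine ⟨l, ?_, ?_⟩
    · rw [hL3, h2, hQ]
    · rw [hL2]
      exact h3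

end Pool.Agent.Q64.L
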