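import Mathlib
import Pool.Agent.Q64.L.Core

/-!
# Generalized eigenvectors
-/

set_option autoImplicit false
set_option linter.unusedSectionVars false

namespace Pool.Agent.Q64.L

open Module Polynomial Pool.Agent.Y156.L

section ops

variable {M : Type*} [AddCommGroup M] [Module ℚ M] (F ψ : Module.End ℚ M) (μ : ℚ)

/-- The auxiliary operator. -/
noncomputable def auxG (χ : ℚ[X]) : Module.End ℚ M :=
  ∑ l ∈ Finset.range (χ.natDegree + 1), χ.coeff l • (F ^ (χ.natDegree - l) *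
    ∑ i ∈ Finset.range l, (F * ψ) ^ i * (algebraMap ℚ (Module.End ℚ M) μ) ^ (l - 1 - i))

theorem rev_op (h : Commute F ψ) (χ : ℚ[X]) :
    aeval F (rev χ μ) = F ^ χ.natDegree * aeval ψ χ -
      auxG F ψ μ χ * (F * ψ - algebraMap ℚ (Module.End ℚ M) μ) := by
  have h1 : aeval F (rev χ μ) = ∑ l ∈ Finset.range (χ.natDegree + 1),
      χ.coeff l • (F ^ (χ.natDegree - l) * (algebraMap ℚ (Module.End ℚ M) μ) ^ l) := by
    rw [rev, map_sum]
    refine Finset.sum_congr rfl fun l _ => ?_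
    rw [map_mul, aeval_C, map_pow, aeval_X, map_mul, map_pow, Algebra.smul_def, mul_assoc,
      ← map_pow, Algebra.commutes (μ ^ l)]
  have hc : Commute (F * ψ) (algebraMap ℚ (Module.End ℚ M) μ) :=
    (Algebra.commutes μ (F * ψ)).symm
  have h2 : auxG F ψ μ χ * (F * ψ - algebraMap ℚ (Module.End ℚ M) μ) =
      ∑ l ∈ Finset.range (χ.natDegree + 1), χ.coeff l • (F ^ (χ.natDegree - l) *
        ((F * ψ) ^ l - (algebraMap ℚ (Module.End ℚ M) μ) ^ l)) := by
    rw [auxG, Finset.sum_mul]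
    refine Finset.sum_congr rfl fun l _ => ?_
    rw [smul_mul_assoc, mul_assoc, hc.geom_sum₂_mul]
  have h3 : F ^ χ.natDegree * aeval ψ χ = ∑ l ∈ Finset.range (χ.natDegree + 1),
      χ.coeff l • (F ^ (χ.natDegree - l) * (F * ψ) ^ l) := by
    rw [aeval_eq_sum_range, Finset.mul_sum]
    refine Finset.sum_congr rfl fun l hl => ?_
    have hl' : l ≤ χ.natDegree := by
      have := Finset.mem_range.1 hl
      omega
    rw [mul_smul_comm, h.mul_pow, ← mul_assoc, ← pow_add, Nat.sub_add_cancel hl']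
  rw [h1, h2, h3, ← Finset.sum_sub_distrib]
  refine Finset.sum_congr rfl fun l _ => ?_
  rw [← smul_sub, mul_sub, sub_sub_cancel]

theorem auxG_commute (h : Commute F ψ) (χ : ℚ[X]) (T : Module.End ℚ M) (hF : Commute T F)
    (hψ : Commute T ψ) : Commute T (auxG F ψ μ χ) := by
  refine Commute.sum_right _ _ _ fun l _ => Commute.smul_right ?_ _
  refine (hF.pow_right _).mul_right (Commute.sum_right _ _ _ fun i _ => ?_)
  have hμ : Commute T (algebraMap ℚ (Module.End ℚ M) μ) := (Algebra.commutes μ T).symm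
  exact ((hF.mul_right hψ).pow_right _).mul_right (hμ.pow_right _)

theorem aeval_commute_of {F T : Module.End ℚ M} (h : Commute F T) (p : ℚ[X]) :
    Commute (aeval F p) T := by
  rw [aeval_eq_sum_range]
  exact Commute.sum_left _ _ _ fun i _ => (h.pow_left i).smul_left _

/-- The elements of `V` killed by `(F ψ - μ) ^ N` are killed by `rev χ μ (F) ^ N`. -/
theorem rev_pow_kill (h : Commute F ψ) (V : Submodule ℚ M) (hF : ∀ m ∈ V, F m ∈ V)
    (hψ : ∀ m ∈ V, ψ m ∈ V) (χ : ℚ[X]) (hχ : ∀ m ∈ V, aeval ψ χ m = 0) (N : ℕ) {m : M}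
    (hm : m ∈ V) (hN : ((F * ψ - algebraMap ℚ (Module.End ℚ M) μ) ^ N) m = 0) :
    aeval F (rev χ μ ^ N) m = 0 := by
  set δ := F * ψ - algebraMap ℚ (Module.End ℚ M) μ with hδ
  have hcF : Commute δ F := by
    refine Commute.sub_left ?_ (Algebra.commutes μ F)
    exact (Commute.refl F).mul_left h.symm
  have hcψ : Commute δ ψ := by
    refine Commute.sub_left ?_ (Algebra.commutes μ ψ)
    exact h.mul_left (Commute.refl ψ)
  have hcG : Commute δ (auxG F ψ μ χ) := auxG_commute F ψ μ h χ δ hcF hcψ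
  have hδV : ∀ x ∈ V, δ x ∈ V := by
    intro x hx
    rw [hδ, LinearMap.sub_apply, Module.End.mul_apply, Module.algebraMap_end_apply]
    exact Submodule.sub_mem _ (hF _ (hψ _ hx)) (Submodule.smul_mem _ _ hx)
  have key : ∀ (N : ℕ) (x : M), x ∈ V →
      aeval F (rev χ μ ^ N) x = ((-auxG F ψ μ χ) ^ N) ((δ ^ N) x) := by
    intro N
    induction N with
    | zero => intro x _; simp
    | succ N ih =>
      intro x hx
      have h1 : aeval F (rev χ μ) x = (-auxG F ψ μ χ) (δ x) := by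
        rw [rev_op F ψ μ h χ, LinearMap.sub_apply, Module.End.mul_apply, hχ x hx, map_zero,
          zero_sub, Module.End.mul_apply, LinearMap.neg_apply]
      have h2 : Commute (aeval F (rev χ μ ^ N)) (-auxG F ψ μ χ) := by
        refine Commute.neg_right ?_
        refine auxG_commute F ψ μ h χ _ ?_ ?_
        · exact aeval_commute_of (Commute.refl F) _
        · exact aeval_commute_of h _
      rw [pow_succ, map_mul, Module.End.mul_apply, h1, ← Module.End.mul_apply, h2.eq,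
        Module.End.mul_apply, ih _ (hδV x hx), pow_succ' (-auxG F ψ μ χ), Module.End.mul_apply,
        pow_succ δ, Module.End.mul_apply]
  rw [key N m hm, hN, map_zero]

end ops

section rel

variable {K : Type} [Field K] [CharZero K] {A : AbelianData K}

theorem commute_frob {Q : ℕ} {T : RelData A} (hT : IsRel Q T) : Commute (T.act A.frob) T.frobM := by
  ext m
  exact (hT.frob_act A.frob m).symm

theorem genM_of_inv {Q : ℕ} {T : RelData A} {i j : ℤ} {m : T.M} (h : T.InvM Q i j m) :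
    GenM Q T i j m := by
  refine ⟨h.1, 1, ?_⟩
  rw [pow_one, shiftM, LinearMap.sub_apply, Module.End.mul_apply, Module.algebraMap_end_apply,
    (inv_iff.1 h).2, sub_self]

theorem genN_of_inv {Q : ℕ} {T : RelData A} {i j : ℤ} {n : T.N} (h : T.InvN Q i j n) :
    GenN Q T i j n := by
  refine ⟨h.1, 1, ?_⟩
  rw [pow_one, shiftN, LinearMap.sub_apply, Module.algebraMap_end_apply,
    (invN_iff.1 h).2, sub_self]

variable {P : ℚ[X] → Prop} {q : ℕ} (hq : 1 < q) {I : Type} {F : I → ℤ[X]} (hG : Good P q F)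

include hq hG in
/-- **The Kunneth formula, for all theories and generalized eigenvectors.** -/
theorem exists_classes {s : ℕ} (hA : IsAbelian A q s F) :
    ∃ (J : Type) (_ : Fintype J) (c : J → ℕ) (D E' : J → A.CH), IsFamily A c D ∧
      IsDual A c D E' ∧ q ^ s ≠ 0 ∧
      ∀ T : RelData A, IsRel (q ^ s) T → PreservesDegree T → EigenvaluesIn P T →
        ∀ (i j : ℤ) (m : T.M), GenM (q ^ s) T i j m →
          m = ∑ t, T.times (D t) (T.pair (E' t) m) ∧
          m = ∑ t, T.times (E' t) (T.pair (D t) m) := by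
  obtain ⟨n, b, α, hb, hα, hα0, hgood⟩ := exists_good_basis hq hG hA
  have hs := hA.pos
  have hQ1 : 1 < q ^ s := Nat.one_lt_pow hs.ne' hq
  have hX1 : (Polynomial.X - 1 : ℚ[X]) ≠ 0 := by
    have := Polynomial.X_sub_C_ne_zero (1 : ℚ)
    rwa [map_one] at this
  have h1 : ∀ t (c : ℤ), α t = ((q ^ s : ℕ) : K) ^ c →
      ∃ l : ℕ, α t = ((q ^ s : ℕ) : K) ^ l ∧ b t ∈ NK A l := by
    intro t c hc
    exact hgood _ hX1 hG.one 1
      (by rw [map_sub, aeval_X, map_one, sub_self]) t c (by rw [mul_one]; exact hc)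
  obtain ⟨J, hJ, c, D, E', hdual, hD, hE, hN⟩ := exists_dual hA hQ1 b α hb h1
  have hN' := span_dual hA hQ1 b α hb h1 hdual hE hN
  have hfam : IsFamily A c D :=
    ⟨hD, hdual.le, fun k hk => exists_codim hA hQ1 b α hb h1 hN hk⟩
  refine ⟨J, hJ, c, D, E', hfam, hdual, by omega, fun T hT hpd hrk i j m hm => ?_⟩
  obtain ⟨χ, hχ, hrank, hkillψ⟩ := hrk i j
  obtain ⟨P', hP, hmix⟩ := exists_kill b α hb hα hα0 χ ((((q ^ s : ℕ) : ℚ)) ^ j) (by
    intro ρ hρ t ht
    obtain ⟨l, -, hl⟩ := hgood χ hχ hrank ρ hρ t j (by rw [ht]; push_cast; rfl)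
    exact ⟨l, hl⟩)
  obtain ⟨hm1, N, hm2⟩ := hm
  have hcom := commute_frob hT
  have hF : ∀ m ∈ T.grM i j, T.act A.frob m ∈ T.grM i j := fun m hm => hpd i j m hm
  have hψ : ∀ m ∈ T.grM i j, T.frobM m ∈ T.grM i j := fun m hm => hT.frob_mem hm
  have hcδ : Commute (shiftM (q ^ s) T j) (T.act A.frob) := by
    refine Commute.sub_left ?_ (Algebra.commutes _ _)
    exact (Commute.refl _).mul_left hcom.symm
  let V : Submodule ℚ T.M := T.grM i j ⊓ LinearMap.ker (shiftM (q ^ s) T j ^ N)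
  have hV : ∀ m ∈ V, T.act A.frob m ∈ V := by
    rintro m ⟨hm1, hm2⟩
    refine ⟨hF m hm1, ?_⟩
    rw [SetLike.mem_coe, LinearMap.mem_ker] at hm2 ⊢
    rw [← Module.End.mul_apply, (hcδ.pow_left N).eq, Module.End.mul_apply, hm2, map_zero]
  have hR : ∀ m ∈ V, aeval (T.act A.frob) (rev χ (((q ^ s : ℕ) : ℚ) ^ j) ^ N) m = 0 := by
    rintro m ⟨hm1, hm2⟩
    rw [SetLike.mem_coe, LinearMap.mem_ker] at hm2
    exact rev_pow_kill _ _ _ hcom (T.grM i j) hF hψ χ hkillψ N hm1 hm2
  have hmV : m ∈ V := ⟨hm1, hm2⟩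
  exact ⟨rel_core hA hT hdual P' _ hP.pow_right
      (fun w => act_proj_mix hA hdual hN (hmix w)) _ hV hR hmV,
    rel_core hA hT hdual.symm P' _ hP.pow_right
      (fun w => act_proj_mix hA hdual.symm hN' (hmix w)) _ hV hR hmV⟩

end rel

end Pool.Agent.Q64.L
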