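import Mathlib
import Pool.Agent.Q64.L.Gen
import Pool.Agent.Y156.L.Thms

/-!
# The statements for `A × U` and for `U`
-/

set_option autoImplicit false
set_option linter.unusedSectionVars false

namespace Pool.Agent.Q64.L

open Module Polynomial Pool.Agent.Y156.L

variable {K : Type} [Field K] [CharZero K] {A : AbelianData K}

section shift

variable {Q : ℕ} (hQ : Q ≠ 0) {T : RelData A} (hT : IsRel Q T)

include hQ hT

theorem shiftM_times {c : ℕ} {b : A.CH} (hb : b ∈ A.codim c) (j : ℤ) (n : T.N) :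
    shiftM Q T (j + c) (T.times b n) = (Q : ℚ) ^ c • T.times b (shiftN Q T j n) := by
  have hQ0 : (Q : ℚ) ≠ 0 := by exact_mod_cast hQ
  rw [shiftM, LinearMap.sub_apply, Module.End.mul_apply, Module.algebraMap_end_apply,
    hT.frob_times, hT.act_frob_times _ hb, shiftN, LinearMap.sub_apply,
    Module.algebraMap_end_apply, map_sub, map_smul, smul_sub, smul_smul, zpow_add₀ hQ0,
    zpow_natCast, mul_comm ((Q : ℚ) ^ j)]

theorem shiftM_pow_times {c : ℕ} {b : A.CH} (hb : b ∈ A.codim c) (j : ℤ) (N : ℕ) (n : T.N) :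
    (shiftM Q T (j + c) ^ N) (T.times b n) =
      ((Q : ℚ) ^ c) ^ N • T.times b ((shiftN Q T j ^ N) n) := by
  induction N with
  | zero => simp
  | succ N ih =>
    rw [pow_succ', Module.End.mul_apply, ih, map_smul, shiftM_times hQ hT hb, smul_smul,
      pow_succ' (shiftN Q T j), Module.End.mul_apply, pow_succ ((Q : ℚ) ^ c)]

theorem gen_times {c : ℕ} {b : A.CH} (hb : b ∈ A.codim c) {i j : ℤ} {n : T.N}
    (hn : GenN Q T i j n) : GenM Q T (i + 2 * c) (j + c) (T.times b n) := by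
  obtain ⟨h1, N, h2⟩ := hn
  refine ⟨hT.times_mem hb h1, N, ?_⟩
  rw [shiftM_pow_times hQ hT hb, h2, map_zero, smul_zero]

variable {J : Type} [Fintype J] {c : J → ℕ} {D E : J → A.CH}

theorem gen_pair (h : IsDual A c D E) {i j : ℤ} {m : T.M} (hm : GenM Q T i j m)
    (hexp : m = ∑ t, T.times (D t) (T.pair (E t) m)) (t : J) :
    GenN Q T (i - 2 * c t) (j - c t) (T.pair (E t) m) := by
  have hQ0 : (Q : ℚ) ≠ 0 := by exact_mod_cast hQ
  obtain ⟨h1, N, h2⟩ := hm
  refine ⟨hT.pair_mem (by have := h.le t; omega) (h.right t) h1, N, ?_⟩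
  have h3 : (shiftM Q T j ^ N) m = ∑ l, T.times (D l)
      (((Q : ℚ) ^ c l) ^ N • (shiftN Q T (j - c l) ^ N) (T.pair (E l) m)) := by
    conv_lhs => rw [hexp]
    rw [map_sum]
    refine Finset.sum_congr rfl fun l _ => ?_
    have h4 := shiftM_pow_times hQ hT (h.left l) (j - c l) N (T.pair (E l) m)
    rw [sub_add_cancel] at h4
    rw [h4, map_smul]
  have h4 := congrArg (T.pair (E t)) h3
  rw [pair_sum hT h, h2, map_zero] at h4
  exact (smul_eq_zero.1 h4.symm).resolve_left (pow_ne_zero _ (pow_ne_zero _ hQ0))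

theorem semisimple_iff (hF : IsFamily A c D) (h : IsDual A c D E)
    (hexp : ∀ (i j : ℤ) (m : T.M), GenM Q T i j m → m = ∑ t, T.times (D t) (T.pair (E t) m))
    (i j : ℤ) : SemisimpleM Q T i j ↔
      ∀ k : ℕ, k ≤ A.dim → SemisimpleN Q T (i - 2 * k) (j - k) := by
  constructor
  · intro h0 k hk n hn
    obtain ⟨t, rfl⟩ := hF.exists_eq k hk
    have h1 := gen_times hQ hT (h.left t) hn
    rw [sub_add_cancel, sub_add_cancel] at h1
    have h2 := h0 _ h1
    have h3 := inv_pair hQ hT h h2 (hexp i j _ h1) t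
    classical
    rwa [dualpair hT h t t n, if_pos rfl] at h3
  · intro h0 m hm
    have h1 := hexp i j m hm
    have h2 : ∀ t, T.InvM Q i j (T.times (D t) (T.pair (E t) m)) := by
      intro t
      have h3 := inv_times hQ hT (h.left t) (h0 (c t) (h.le t) _ (gen_pair hQ hT h hm h1 t))
      rwa [sub_add_cancel, sub_add_cancel] at h3
    have h3 : ∑ t, T.times (D t) (T.pair (E t) m) ∈ invSub T Q i j :=
      Submodule.sum_mem _ fun t _ => h2 t
    rw [← h1] at h3
    exact h3

end shift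

section main

variable {P : ℚ[X] → Prop} {q : ℕ} (hq : 1 < q) {I : Type} {F : I → ℤ[X]} (hG : Good P q F)

include hq hG in
/-- **All the statements at once.** -/
theorem exists_main {s : ℕ} (hA : IsAbelian A q s F) :
    ∃ (J : Type) (_ : Fintype J) (c : J → ℕ) (D : J → A.CH), IsFamily A c D ∧
      (∀ R : RelData A, IsRel (q ^ s) R → PreservesDegree R → EigenvaluesIn P R →
        R.Kunneth (q ^ s) c D ∧
        (∀ i j : ℤ, SemisimpleM (q ^ s) R i j ↔
          ∀ k : ℕ, k ≤ A.dim → SemisimpleN (q ^ s) R (i - 2 * k) (j - k)) ∧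
        ∀ (T : RelData A) (ρ : Regulator T R), IsRel (q ^ s) T → IsRegulator ρ →
          ∀ i j : ℤ, OntoM ρ (q ^ s) i j ↔
            ∀ k : ℕ, k ≤ A.dim → OntoN ρ (q ^ s) (i - 2 * k) (j - k)) ∧
      (∀ T : RelData A, IsRel (q ^ s) T → PreservesDegree T → EigenvaluesIn P T →
        T.IsPure (q ^ s) → T.Kunneth (q ^ s) c D ∧
        ∀ (R : RelData A) (ρ : Regulator T R), IsRegulator ρ →
          ∀ i j : ℤ, InjectiveM ρ i j ↔
            ∀ k : ℕ, k ≤ A.dim → InjectiveN ρ (i - 2 * k) (j - k)) := by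
  obtain ⟨J, hJ, c, D, E', hF, hdual, hQ, hmain⟩ := exists_classes hq hG hA
  refine ⟨J, hJ, c, D, hF, fun R hR hpd hrk => ?_, fun T hT hpd hrk hpure => ?_⟩
  · have hexp := fun i j m hm => (hmain R hR hpd hrk i j m hm).1
    have hexp' : ∀ (i j : ℤ) (m : R.M), R.InvM (q ^ s) i j m →
        m = ∑ t, R.times (D t) (R.pair (E' t) m) := fun i j m hm =>
      hexp i j m (genM_of_inv hm)
    exact ⟨kunneth_of hQ hR hdual hexp', semisimple_iff hQ hR hF hdual hexp,
      fun T ρ hT hc i j => tate_iff hF hdual hQ hT hR hc hexp' i j⟩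
  · have hexp : ∀ (i j : ℤ) (m : T.M), T.InvM (q ^ s) i j m →
        m = ∑ t, T.times (D t) (T.pair (E' t) m) := fun i j m hm =>
      (hmain T hT hpd hrk i j m (genM_of_inv hm)).1
    exact ⟨kunneth_of hQ hT hdual hexp, fun R ρ hc i j =>
      beilinson_iff hF hdual hT hc (fun i j m hm => hexp i j m (hpure i j m hm)) i j⟩

end main

end Pool.Agent.Q64.L
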