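import Mathlib
import Pool.Agent.Q64.L.Iff

/-!
# Almost all Weil polynomials are good
-/

set_option autoImplicit false

namespace Pool.Agent.Q64.L

open Polynomial Pool.Agent.Y156.L Pool.Agent.W484.TB Pool.Agent.W484.HS Pool.Agent.W521.Frob
  Pool.Agent.W521.Count Pool.Agent.W521.Bad Pool.Agent.W521.Descent Pool.Agent.W521.Density

theorem good_rank {I : Type} [Finite I] (g : I → ℕ) (E : IntermediateField ℚ ℂ)
    [FiniteDimensional ℚ E] {q : ℕ} (hq : 1 < q) (r : ℕ) (hr : ∀ i, r < g i)
    (x : (Σ i, Fin (g i)) → ℤ) (hx : GoodU (splitPrimes E) g q x) :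
    Good (RootsRank E r) q (fun i => weil q (polys g x i)) where
  monic := fun i => weil_monic q (mkPoly_monic (g i) _)
  one := Pool.Agent.W484.CH.rank_one E r
  coeff := fun χ h => Pool.Agent.Y156.L.coeff_zero_ne h
  pair := fun K _ _ s hs χ hχ hrank ρ hρ =>
    exactPair_field_over g E (by omega) r hr x hx s hs χ hχ hrank ρ hρ

/-- The count for any property which good families have. -/
theorem countA {I : Type} [Fintype I] (g : I → ℕ) (r : ℕ) (hr : ∀ i, r < g i)
    (E : IntermediateField ℚ ℂ) [FiniteDimensional ℚ E] (P : ℕ → (I → ℤ[X]) → Prop)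
    (hP : ∀ (q : ℕ) (F : I → ℤ[X]), 1 < q → Good (RootsRank E r) q F → P q F) :
    AlmostAll g P :=
  count_of_goodU (splitPrimes E) (dense_splitPrimes E) g
    (fun i => (Nat.zero_le r).trans_lt (hr i)) P
    fun q hq x hx => hP q _ hq.one_lt (good_rank g E hq.one_lt r hr x hx)

end Pool.Agent.Q64.L
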