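import Mathlib
import Pool.Agent.Q64.L.Iff
import Pool.Agent.Q64.CT.Thms

/-!
# Weil numbers of almost all slope types of CM fields are good
-/

set_option autoImplicit false

namespace Pool.Agent.Q64.L

open Polynomial NumberField Module Pool.Agent.H204R3.CM Pool.Agent.H977R3.CM Pool.Agent.TH170
  Pool.Agent.Y1.KN Pool.Agent.Y1.CT

theorem good_unrelated {I : Type} {K : I → Type} [∀ i, Field (K i)] {q : ℕ} {F : I → ℤ[X]}
    (hR : NoRel F q (Unrelated K)) : Good (UnrelatedRoots K) q F where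
  monic := hR.monic
  one := fun ρ hρ => by
    rw [map_sub, aeval_X, map_one, sub_eq_zero] at hρ
    rw [hρ]
    exact hR.one
  coeff := fun χ h h0 => by
    refine (h 0 ?_).1 rfl
    rw [aeval_def, eval₂_at_zero, h0, map_zero]
  pair := fun L _ _ s hs χ hχ hrank ρ hρ =>
    exactPair_field F hR.monic q s χ hχ (fun ρ hρ => hR.pair s hs ρ (hrank ρ hρ)) ρ hρ

/-- The count for any property which good families have. -/
theorem countC :
    ∃ C : ℝ, 0 ≤ C ∧ ∀ (p : ℕ) [Fact p.Prime] (ν : PadicAlgCl p ≃+* ℂ) (I : Type) [Fintype I]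
      (K : I → Type) [∀ i, Field (K i)] [∀ i, NumberField (K i)] [∀ i, IsCMField (K i)]
      (M : ∀ i, (K i →+* ℂ) → ℤ) (n g q : I → ℕ) (D : I → ℝ), PairwiseIndep K →
      (∀ i φ, M i (ComplexEmbedding.conjugate φ) = M i φ) → (∀ i, n i ≠ 0) →
      (∀ i φ, M i φ ∣ (n i : ℤ)) → (∀ i, finrank ℚ (K i) = 2 * g i) →
      (∀ i, q i ∣ g i ∧ (q i = 1 ∨ (q i).Prime)) → (∀ i, 1 ≤ D i) →
      (∀ (i : I) (F : IntermediateField ℚ (K i)), IsCMField F → IsGalois ℚ F →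
        ¬ IsAbelianGalois ℚ F → (finrank ℚ F : ℝ) ≤ D i) →
      ∀ P : ℕ → (I → ℤ[X]) → Prop,
      (∀ (Q : ℕ) (f : I → ℤ[X]), 1 < Q → Good (UnrelatedRoots K) Q f → P Q f) →
      (({Φ : ∀ i, Set (K i →+* ℂ) | (∀ i, IsCMType (Φ i)) ∧
        ¬ ForAllTypes ν K M P Φ}.ncard : ℕ) : ℝ) ≤
        2 ^ (∑ i, g i) * ∑ i, C * (n i : ℝ) ^ 2 * ((1 + Real.log (2 * g i)) ^ 16 *
          min ((numCMSubfields (K i) : ℝ) ^ 2 * D i ^ (1 / 4 : ℝ) / √(g i)) (√(g i) / q i)) := by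
  obtain ⟨C, hC0, hC⟩ := Pool.Agent.Q64.CT.count
  refine ⟨C, hC0, ?_⟩
  intro p _ ν I _ K _ _ _ M n g q D hind hM hn hMn hg hq hD hDF P hP
  exact hC p ν I K M n g q D hind hM hn hMn hg hq hD hDF P
    fun Q f hQ hR => hP Q f hQ (good_unrelated hR)

end Pool.Agent.Q64.L
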