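import Mathlib
import Pool.Agent.Q64.L.Defs

/-!
# Varieties over finitely generated fields: classes of cycles and Galois invariants
-/

set_option autoImplicit false

namespace Pool.Agent.Q64.L

open Polynomial Pool.Agent.Y156.L
open scoped TensorProduct

section classes

variable {K : Type} [Field K] {A : AbelianData K} (R : RelData A) (L : Type) [Field L]
  [Module L R.N] [Module L R.M]

/-- The products with classes on `A` and the push-forward are `L`-linear. -/
structure IsLinear : Prop where
  mul : ∀ (x : A.CH) (t : L) (n : R.N), R.mul x (t • n) = t • R.mul x n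
  push : ∀ (x : A.CH) (t : L) (m : R.M), R.push x (t • m) = t • R.push x m

/-- Let `Z` be a smooth projective variety over a field `k` which contains the field of definition of
`A`: the groups `cycN j = A^j(Z)` and `cycM j = A^j(A × Z)` of the classes of cycles of codimension
`j`, with integral coefficients, in the `ℓ-adic` cohomology, and the spaces `galN j` and `galM j` of
the Galois invariants in `H^(2 j)(j)` of `Z` and of `A × Z`. -/
structure ClassData where
  cycN : ℤ → Submodule ℤ R.N
  cycM : ℤ → Submodule ℤ R.M
  galN : ℤ → Submodule L R.N
  galM : ℤ → Submodule L R.M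

variable {R} {L}

/-- Products with classes on `A` (with rational coefficients) and push-forwards, up to a common
denominator, of classes of cycles are classes of cycles; products and push-forwards of Galois
invariants are Galois invariants; classes of cycles are Galois invariants; and the Galois invariants
are invariant under the Frobenius element under consideration, the residue field of which has `Q`
elements. -/
structure IsClassData (S : ClassData R L) (Q : ℕ) : Prop where
  mul_cyc : ∀ {c : ℕ} {x : A.CH}, A.Codim c x → ∀ j : ℤ, ∃ a : ℕ, 0 < a ∧ ∀ n ∈ S.cycN j,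
    a • R.mul x n ∈ S.cycM (j + c)
  push_cyc : ∀ {c d : ℕ} {x : A.CH}, c + d = A.dim → A.Codim d x → ∀ j : ℤ, ∃ a : ℕ, 0 < a ∧
    ∀ m ∈ S.cycM j, a • R.push x m ∈ S.cycN (j - c)
  mul_gal : ∀ {c : ℕ} {x : A.CH}, A.Codim c x → ∀ j : ℤ, ∀ n ∈ S.galN j,
    R.mul x n ∈ S.galM (j + c)
  push_gal : ∀ {c d : ℕ} {x : A.CH}, c + d = A.dim → A.Codim d x → ∀ j : ℤ, ∀ m ∈ S.galM j,
    R.push x m ∈ S.galN (j - c)
  cyc_gal : ∀ (j : ℤ), ∀ m ∈ S.cycM j, m ∈ S.galM j
  frob : ∀ (j : ℤ), ∀ m ∈ S.galM j, R.InvM Q (2 * j) j m

/-- The natural map from `L ⊗ G` to `V`, `G` a subgroup of the `L`-vector space `V`. -/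
noncomputable def naturalMap {V : Type} [AddCommGroup V] [Module L V] (G : Submodule ℤ V) :
    L ⊗[ℤ] G →ₗ[L] V := LinearMap.liftBaseChange L G.subtype

/-- The Tate conjecture in the form of the question for a group `G` of classes of cycles and the space
`T` of the Galois invariants: `G` is finitely generated and the natural map from `L ⊗ G` to `T` is an
isomorphism. -/
def TateIso {V : Type} [AddCommGroup V] [Module L V] (G : Submodule ℤ V) (T : Submodule L V) :
    Prop :=
  G.FG ∧ Function.Injective (naturalMap (L := L) G) ∧ LinearMap.range (naturalMap (L := L) G) = T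

end classes

/-- `TateIsoReduces P q F`: for every abelian variety `A` as in `IsAbelian` (over a finite field
contained in the field `k`), every smooth projective variety `Z` over `k`, with the `ℓ`-adic
cohomology `R` of `Z` and `A × Z`, on which the Frobenius element of a place of `k` with residue field
of `q ^ s` elements satisfies polynomials with the property `P`, the classes of cycles and the Galois
invariants `S`, and all `j`: the group `A^j(A × Z)` is finitely generated and `A^j(A × Z) ⊗ ℚ_ℓ` is
the space of the Galois invariants in `H^(2 j)(j)` if and only if the same is true for all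
`A^(j - k)(Z)`, `0 ≤ k ≤ dim A`. -/
def TateIsoReduces (P : ℚ[X] → Prop) (q : ℕ) {I : Type} (F : I → ℤ[X]) : Prop :=
  ∀ (K : Type) [Field K] [CharZero K] (A : AbelianData K) (s : ℕ), IsAbelian A q s F →
    ∀ (R : RelData A) (L : Type) [Field L] [CharZero L] [Module L R.N] [Module L R.M],
      IsRel (q ^ s) R → PreservesDegree R → EigenvaluesIn P R → IsLinear R L →
      ∀ S : ClassData R L, IsClassData S (q ^ s) → ∀ j : ℤ,
        TateIso (S.cycM j) (S.galM j) ↔
          ∀ k : ℕ, k ≤ A.dim → TateIso (S.cycN (j - k)) (S.galN (j - k))

section num

variable {K : Type} [Field K] {A : AbelianData K} {T R : RelData A} (B : CupProduct T) (d : ℤ)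

/-- `x` is a cycle of codimension `j` on `Z` (modulo homological equivalence, `dim Z = d`) whose
intersection numbers with all cycles of codimension `d - j` are zero. -/
def NumTrivialN (j : ℤ) (x : T.N) : Prop :=
  T.DegN (2 * j) j x ∧ ∀ y, T.DegN (2 * (d - j)) (d - j) y → B.cupN x y = 0

/-- `x` is a cycle of codimension `j` on `A × Z` whose intersection numbers with all cycles of
codimension `dim A + d - j` are zero. -/
def NumTrivialM (j : ℤ) (x : T.M) : Prop :=
  T.DegM (2 * j) j x ∧ ∀ y, T.DegM (2 * (A.dim + d - j)) (A.dim + d - j) y → B.cupM x y = 0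

/-- `N^j(Z) = 0`. -/
def NumEqHomN (j : ℤ) : Prop := ∀ x, NumTrivialN B d j x → x = 0

/-- `N^j(A × Z) = 0`. -/
def NumEqHomM (j : ℤ) : Prop := ∀ x, NumTrivialM B d j x → x = 0

/-- `T` consists of the cycles modulo homological equivalence: the cycle map `ρ` is injective, and
its values on cycles are invariant under the Frobenius element under consideration. -/
structure IsCycles (ρ : Regulator T R) (Q : ℕ) : Prop where
  graded : IsGradedTheory T
  regulator : IsRegulator ρ
  injective : ∀ m, ρ.regM m = 0 → m = 0
  frob : ∀ (j : ℤ) (m : T.M), T.DegM (2 * j) j m → R.InvM Q (2 * j) j (ρ.regM m)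

end num

/-- `NumHomReduces P q F`: for every abelian variety `A` as in `IsAbelian` (over a finite field
contained in the field `k`), every smooth projective variety `Z` over `k` of dimension `d`, with the
`ℓ`-adic cohomology `R` of `Z` and `A × Z`, on which the Frobenius element of a place of `k` with
residue field of `q ^ s` elements satisfies polynomials with the property `P`, the cycles modulo
homological equivalence `T` with the intersection products, and all `j`: numerical and homological
equivalence coincide for the cycles of codimension `j` on `A × Z` if and only if they coincide for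
the cycles of codimension `j - k`, `0 ≤ k ≤ dim A`, on `Z`. -/
def NumHomReduces (P : ℚ[X] → Prop) (q : ℕ) {I : Type} (F : I → ℤ[X]) : Prop :=
  ∀ (K : Type) [Field K] [CharZero K] (A : AbelianData K) (s : ℕ), IsAbelian A q s F →
    ∀ R : RelData A, IsRel (q ^ s) R → PreservesDegree R → EigenvaluesIn P R →
      ∀ (T : RelData A) (ρ : Regulator T R), IsCycles ρ (q ^ s) →
      ∀ B : CupProduct T, IsCupProduct B → ∀ d j : ℤ,
        NumEqHomM B d j ↔ ∀ k : ℕ, k ≤ A.dim → NumEqHomN B d (j - k)

end Pool.Agent.Q64.L
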