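import Mathlib
import Pool.Agent.Q64.L.ClDefs

/-!
# Multiplicities of the eigenvalues of Frobenius
-/

set_option autoImplicit false

namespace Pool.Agent.Q64.L

open Polynomial Pool.Agent.Y156.L

variable {K : Type} [Field K] {A : AbelianData K} (Q : ℕ) (R : RelData A) (L : Type) [Field L]

/-- The generalized eigenspace of the Frobenius endomorphism on `H^i(U)` for the eigenvalue
`Q ^ j`. -/
def eigN [Module L R.N] (i j : ℤ) : Submodule L R.N := Submodule.span L {n | GenN Q R i j n}

/-- The generalized eigenspace of the Frobenius endomorphism on `H^i(A × U)` for the eigenvalue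
`Q ^ j`. -/
def eigM [Module L R.M] (i j : ℤ) : Submodule L R.M := Submodule.span L {m | GenM Q R i j m}

/-- The multiplicity of the eigenvalue `Q ^ j` of the Frobenius endomorphism on `H^i(U)`. -/
noncomputable def multN [Module L R.N] (i j : ℤ) : ℕ := Module.finrank L (eigN Q R L i j)

/-- The multiplicity of the eigenvalue `Q ^ j` of the Frobenius endomorphism on `H^i(A × U)`. -/
noncomputable def multM [Module L R.M] (i j : ℤ) : ℕ := Module.finrank L (eigM Q R L i j)

/-- The groups of the theory for `U` have finite-dimensional eigenspaces. -/
def FiniteEig [Module L R.N] : Prop := ∀ i j : ℤ, Module.Finite L (eigN Q R L i j)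

end Pool.Agent.Q64.L
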