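import Mathlib
import Pool.Agent.Q64.L.RankDefs
import Pool.Agent.Q64.L.Stmt

/-!
# The rank formula of Beilinson and Bloch
-/

set_option autoImplicit false

namespace Pool.Agent.Q64.L

open Polynomial Pool.Agent.Y156.L

section

variable {K : Type} [Field K] {A : AbelianData K} (Q : ℕ) (T R : RelData A) (L : Type) [Field L]

/-- The rank formula for `Z` in codimension `j`: the group `T.grN (2 j) j` (the homologically trivial
cycles of codimension `j` on `Z`) is finite-dimensional, and its dimension is the multiplicity of the
eigenvalue `Q ^ j` of Frobenius on the cohomology group `R.grN (2 j - 1) j` (the order of vanishing of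
`L (H^(2 j - 1)(Z), s)` at `s = j`). -/
def RankFormulaN [Module L R.N] (j : ℤ) : Prop :=
  Module.Finite ℚ (T.grN (2 * j) j) ∧
    Module.finrank ℚ (T.grN (2 * j) j) = multN Q R L (2 * j - 1) j

/-- The rank formula for `A × Z` in codimension `j`. -/
def RankFormulaM [Module L R.M] (j : ℤ) : Prop :=
  Module.Finite ℚ (T.grM (2 * j) j) ∧
    Module.finrank ℚ (T.grM (2 * j) j) = multM Q R L (2 * j - 1) j

/-- There are no cycles of negative codimension on `Z` and no cohomology groups of negative
degree. -/
def NoNegative : Prop :=
  ∀ j : ℤ, j < 0 → (∀ n, T.DegN (2 * j) j n → n = 0) ∧ (∀ n, R.DegN (2 * j - 1) j n → n = 0)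

end

/-- `RankReduces P q F`: let `A` be an abelian variety as in `IsAbelian`, over the field with
`Q = q ^ s` elements, `k` the function field of a curve `C` over this field and `Z` a smooth
projective variety over `k`. Let `T` be the homologically trivial cycles modulo rational equivalence
on `Z` and `A × Z` (tensored with `ℚ`), and `R` the sum of the groups `H^1(C, j_* H^i)`, tensored with
an algebraic closure, of the cohomology of `Z` and `A × Z`. If the Frobenius endomorphism of the
scheme `Z` satisfies on these groups polynomials with the property `P`, then for every `n` the rank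
formula is true for `A × Z` in all codimensions up to `n` if and only if it is true for `Z` in all
codimensions up to `n`. -/
def RankReduces (P : ℚ[X] → Prop) (q : ℕ) {I : Type} (F : I → ℤ[X]) : Prop :=
  ∀ (K : Type) [Field K] [CharZero K] (A : AbelianData K) (s : ℕ), IsAbelian A q s F →
    ∀ (T R : RelData A) (L : Type) [Field L] [CharZero L] [Module L R.N] [Module L R.M],
      IsTheory P (q ^ s) T → T.IsPure (q ^ s) → IsTheory P (q ^ s) R → IsLinear R L →
      FiniteEig (q ^ s) R L → NoNegative T R → ∀ n : ℤ,
        (∀ j : ℤ, j ≤ n → RankFormulaM (q ^ s) T R L j) ↔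
          ∀ j : ℤ, j ≤ n → RankFormulaN (q ^ s) T R L j

end Pool.Agent.Q64.L
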