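import Mathlib
import Pool.Agent.Q64.L.Iff
import Pool.Agent.Q64.L.RankDefs

/-!
# Ranks and multiplicities for `A × U` and for `U`
-/

set_option autoImplicit false
set_option linter.unusedSectionVars false

namespace Pool.Agent.Q64.L

open Module Polynomial Pool.Agent.Y156.L

section lin

variable {S V W : Type} [Field S] [AddCommGroup V] [AddCommGroup W] [Module S V] [Module S W]
  {J : Type} [Fintype J]

/-- A decomposition. -/
theorem equiv_of (X : Submodule S V) (Y : J → Submodule S W) (u : J → W →ₗ[S] V)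
    (v : J → V →ₗ[S] W) (hu : ∀ t, ∀ y ∈ Y t, u t y ∈ X) (hv : ∀ t, ∀ x ∈ X, v t x ∈ Y t)
    (h1 : ∀ t y, v t (u t y) = y) (h2 : ∀ s t, s ≠ t → ∀ y, v s (u t y) = 0)
    (h3 : ∀ x ∈ X, x = ∑ t, u t (v t x)) : Nonempty (X ≃ₗ[S] (∀ t, Y t)) := by
  classical
  let f : X →ₗ[S] (∀ t, Y t) := LinearMap.pi fun t => (v t).restrict (hv t)
  refine ⟨LinearEquiv.ofBijective f ⟨fun x y hxy => ?_, fun z => ?_⟩⟩
  · apply Subtype.ext
    rw [h3 x x.2, h3 y y.2]
    refine Finset.sum_congr rfl fun t _ => ?_
    have h4 : (v t).restrict (hv t) x = (v t).restrict (hv t) y := congrFun hxy t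
    have h5 : v t x = v t y := congrArg Subtype.val h4
    rw [h5]
  · refine ⟨⟨∑ t, u t (z t), Submodule.sum_mem _ fun t _ => hu t _ (z t).2⟩, ?_⟩
    funext s
    apply Subtype.ext
    change v s (∑ t, u t (z t)) = z s
    rw [map_sum, Finset.sum_eq_single s (fun t _ ht => h2 s t (Ne.symm ht) _)
      (fun h => absurd (Finset.mem_univ _) h), h1]

theorem finite_iff_of {X : Submodule S V} {Y : J → Submodule S W}
    (e : X ≃ₗ[S] (∀ t, Y t)) : Module.Finite S X ↔ ∀ t, Module.Finite S (Y t) := by
  constructor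
  · intro h t
    have h1 : Module.Finite S (∀ t, Y t) := Module.Finite.equiv e
    exact Module.Finite.of_surjective (LinearMap.proj t : (∀ s, Y s) →ₗ[S] Y t) fun y => by
      classical
      exact ⟨Pi.single t y, by simp⟩
  · intro h
    exact Module.Finite.equiv e.symm

theorem finrank_of {X : Submodule S V} {Y : J → Submodule S W}
    (e : X ≃ₗ[S] (∀ t, Y t)) (h : ∀ t, Module.Finite S (Y t)) :
    finrank S X = ∑ t, finrank S (Y t) := by
  rw [e.finrank_eq, Module.finrank_pi_fintype]

end lin

variable {K : Type} [Field K] [CharZero K] {A : AbelianData K} {J : Type} [Fintype J]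
  {c : J → ℕ} {D E : J → A.CH} {Q : ℕ}

/-- The groups of a pure theory. -/
theorem equiv_gr (h : IsDual A c D E) {T : RelData A} (hT : IsRel Q T)
    (hexp : ∀ (i j : ℤ), ∀ m ∈ T.grM i j, m = ∑ t, T.times (D t) (T.pair (E t) m)) (i j : ℤ) :
    Nonempty (T.grM i j ≃ₗ[ℚ] (∀ t, T.grN (i - 2 * c t) (j - c t))) := by
  classical
  refine equiv_of _ _ (fun t => T.times (D t)) (fun t => T.pair (E t)) (fun t y hy => ?_)
    (fun t x hx => ?_) (fun t y => ?_) (fun s t hst y => ?_) (fun x hx => hexp i j x hx)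
  · have h1 := hT.times_mem (h.left t) hy
    rwa [sub_add_cancel, sub_add_cancel] at h1
  · exact hT.pair_mem (Nat.add_sub_of_le (h.le t)) (h.right t) hx
  · rw [dualpair hT h t t, if_pos rfl]
  · rw [dualpair hT h t s, if_neg (Ne.symm hst)]

/-- The generalized eigenspaces. -/
theorem equiv_gen (hQ : Q ≠ 0) (h : IsDual A c D E) {R : RelData A} (hR : IsRel Q R)
    {L : Type} [Field L] [Module L R.N] [Module L R.M] (hL : IsLinear R L)
    (hexp : ∀ (i j : ℤ) (m : R.M), GenM Q R i j m → m = ∑ t, R.times (D t) (R.pair (E t) m))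
    (i j : ℤ) : Nonempty (eigM Q R L i j ≃ₗ[L] (∀ t, eigN Q R L (i - 2 * c t) (j - c t))) := by
  classical
  let u : J → R.N →ₗ[L] R.M := fun t =>
    { toFun := fun n => R.times (D t) n
      map_add' := fun x y => map_add _ _ _
      map_smul' := fun l x => hL.mul (D t) l x }
  let v : J → R.M →ₗ[L] R.N := fun t =>
    { toFun := fun m => R.pair (E t) m
      map_add' := fun x y => map_add _ _ _
      map_smul' := fun l x => hL.push (E t) l x }
  refine equiv_of _ _ u v (fun t y hy => ?_) (fun t x hx => ?_) (fun t y => ?_)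
    (fun s t hst y => ?_) (fun x hx => ?_)
  · have h1 : eigN Q R L (i - 2 * c t) (j - c t) ≤ (eigM Q R L i j).comap (u t) := by
      refine Submodule.span_le.2 fun n hn => Submodule.subset_span ?_
      have h2 := gen_times hQ hR (h.left t) hn
      rwa [sub_add_cancel, sub_add_cancel] at h2
    exact h1 hy
  · have h1 : eigM Q R L i j ≤ (eigN Q R L (i - 2 * c t) (j - c t)).comap (v t) := by
      refine Submodule.span_le.2 fun m hm => Submodule.subset_span ?_
      exact gen_pair hQ hR h hm (hexp i j m hm) t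
    exact h1 hx
  · change R.pair (E t) (R.times (D t) y) = y
    rw [dualpair hR h t t, if_pos rfl]
  · change R.pair (E s) (R.times (D t) y) = 0
    rw [dualpair hR h t s, if_neg (Ne.symm hst)]
  · have h1 : eigM Q R L i j ≤ LinearMap.ker (LinearMap.id - ∑ t, (u t) ∘ₗ (v t)) := by
      refine Submodule.span_le.2 fun m hm => ?_
      rw [SetLike.mem_coe, LinearMap.mem_ker, LinearMap.sub_apply, LinearMap.id_apply,
        LinearMap.sum_apply, sub_eq_zero]
      exact hexp i j m hm
    have h2 := h1 hx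
    rw [LinearMap.mem_ker, LinearMap.sub_apply, LinearMap.id_apply, LinearMap.sum_apply,
      sub_eq_zero] at h2
    exact h2

end Pool.Agent.Q64.L
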