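import Mathlib
import Pool.Agent.Q64.L.Rank
import Pool.Agent.Q64.L.BBDefs

/-!
# The rank formula for `A × Z` and for `Z`
-/

set_option autoImplicit false
set_option linter.unusedSectionVars false

namespace Pool.Agent.Q64.L

open Module Polynomial Pool.Agent.Y156.L

/-- Cancellation of the terms known to be equal. -/
theorem eq_of_sum {J : Type} [Fintype J] (p : J → Prop) (a b : J → ℕ) (a0 b0 : ℕ)
    (h : ∑ t, a t = ∑ t, b t) (h1 : ∀ t, p t → a t = a0 ∧ b t = b0) (h2 : ∀ t, ¬ p t → a t = b t)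
    (t0 : J) (ht0 : p t0) : a0 = b0 := by
  classical
  have h3 : ∀ t, ((a t : ℤ) - b t) = if p t then (a0 : ℤ) - b0 else 0 := by
    intro t
    by_cases ht : p t
    · rw [if_pos ht, (h1 t ht).1, (h1 t ht).2]
    · rw [if_neg ht, h2 t ht, sub_self]
  have h4 : ∑ t, ((a t : ℤ) - b t) = 0 := by
    rw [Finset.sum_sub_distrib]
    have := congrArg (Nat.cast : ℕ → ℤ) h
    push_cast at this
    rw [this, sub_self]
  rw [Finset.sum_congr rfl fun t _ => h3 t, Finset.sum_ite, Finset.sum_const,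
    Finset.sum_const_zero, add_zero, nsmul_eq_mul, mul_eq_zero] at h4
  rcases h4 with h4 | h4
  · have h5 : (Finset.univ.filter fun t => p t).card = 0 := by exact_mod_cast h4
    rw [Finset.card_eq_zero] at h5
    have h6 : t0 ∈ Finset.univ.filter fun t => p t := by simp [ht0]
    rw [h5] at h6
    exact absurd h6 (Finset.notMem_empty _)
  · omega

variable {K : Type} [Field K] [CharZero K] {A : AbelianData K} {J : Type} [Fintype J]
  {c : J → ℕ} {D E : J → A.CH} {Q : ℕ}

section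

variable (hQ : Q ≠ 0) (h : IsDual A c D E) {T R : RelData A} (hT : IsRel Q T) (hR : IsRel Q R)
  {L : Type} [Field L] [Module L R.N] [Module L R.M] (hL : IsLinear R L) (hfin : FiniteEig Q R L)
  (hexpT : ∀ (i j : ℤ), ∀ m ∈ T.grM i j, m = ∑ t, T.times (D t) (T.pair (E t) m))
  (hexpR : ∀ (i j : ℤ) (m : R.M), GenM Q R i j m → m = ∑ t, R.times (D t) (R.pair (E t) m))

include h hT hexpT in
theorem finite_gr (i j : ℤ) : Module.Finite ℚ (T.grM i j) ↔
    ∀ t, Module.Finite ℚ (T.grN (i - 2 * c t) (j - c t)) := by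
  obtain ⟨e⟩ := equiv_gr h hT hexpT i j
  exact finite_iff_of e

include h hT hexpT in
theorem finrank_gr (i j : ℤ) (hf : ∀ t, Module.Finite ℚ (T.grN (i - 2 * c t) (j - c t))) :
    finrank ℚ (T.grM i j) = ∑ t, finrank ℚ (T.grN (i - 2 * c t) (j - c t)) := by
  obtain ⟨e⟩ := equiv_gr h hT hexpT i j
  exact finrank_of e hf

include hQ h hR hL hfin hexpR in
theorem multM_eq (i j : ℤ) : multM Q R L i j = ∑ t, multN Q R L (i - 2 * c t) (j - c t) := by
  obtain ⟨e⟩ := equiv_gen hQ h hR hL hexpR i j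
  exact finrank_of e fun t => hfin _ _

include hQ h hT hR hL hfin hexpT hexpR

/-- The rank formula for `Z` implies that for `A × Z`. -/
theorem rankM_of (j : ℤ) (hj : ∀ t, RankFormulaN Q T R L (j - c t)) : RankFormulaM Q T R L j := by
  have h1 : ∀ t, 2 * (j - c t) = 2 * j - 2 * (c t : ℤ) := fun t => by ring
  have h2 : ∀ t, 2 * j - 2 * (c t : ℤ) - 1 = 2 * j - 1 - 2 * (c t : ℤ) := fun t => by ring
  have hf : ∀ t, Module.Finite ℚ (T.grN (2 * j - 2 * c t) (j - c t)) := fun t => by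
    have h3 := (hj t).1
    rwa [h1] at h3
  refine ⟨(finite_gr h hT hexpT _ _).2 hf, ?_⟩
  rw [finrank_gr h hT hexpT _ _ hf, multM_eq hQ h hR hL hfin hexpR]
  refine Finset.sum_congr rfl fun t _ => ?_
  have h3 := (hj t).2
  rwa [h1, h2] at h3

/-- The rank formula for `A × Z` in all codimensions up to `n` implies that for `Z`. -/
theorem rankN_of (hF : IsFamily A c D) (hneg : NoNegative T R) {n : ℤ}
    (hM : ∀ j : ℤ, j ≤ n → RankFormulaM Q T R L j) :
    ∀ k : ℕ, ∀ j : ℤ, j < k → j ≤ n → RankFormulaN Q T R L j := by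
  have h1 : ∀ (j : ℤ) (t : J), 2 * (j - c t) = 2 * j - 2 * (c t : ℤ) := fun j t => by ring
  have h2 : ∀ (j : ℤ) (t : J), 2 * j - 2 * (c t : ℤ) - 1 = 2 * j - 1 - 2 * (c t : ℤ) :=
    fun j t => by ring
  intro k
  induction k with
  | zero =>
    intro j hj _
    obtain ⟨h3, h4⟩ := hneg j (by exact_mod_cast hj)
    have h5 : T.grN (2 * j) j = ⊥ := (Submodule.eq_bot_iff _).2 fun x hx => h3 x hx
    have h6 : eigN Q R L (2 * j - 1) j = ⊥ := by
      rw [eigN, Submodule.span_eq_bot]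
      exact fun x hx => h4 x hx.1
    refine ⟨?_, ?_⟩
    · rw [h5]
      infer_instance
    · rw [multN, h5, h6, finrank_bot, finrank_bot]
  | succ k ih =>
    intro j hj hjn
    by_cases hjk : j < k
    · exact ih j hjk hjn
    obtain ⟨t0, ht0⟩ := hF.exists_eq 0 (Nat.zero_le _)
    obtain ⟨h3, h4⟩ := hM j hjn
    have hf := (finite_gr h hT hexpT _ _).1 h3
    rw [finrank_gr h hT hexpT _ _ hf, multM_eq hQ h hR hL hfin hexpR] at h4
    have h5 : Module.Finite ℚ (T.grN (2 * j) j) := by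
      have h6 := hf t0
      rwa [ht0, Nat.cast_zero, mul_zero, sub_zero, sub_zero] at h6
    refine ⟨h5, eq_of_sum (fun t => c t = 0) _ _ _ _ h4 (fun t ht => ?_) (fun t ht => ?_) t0 ht0⟩
    · have ht' : c t = 0 := ht
      rw [ht', Nat.cast_zero, mul_zero, sub_zero, sub_zero, sub_zero]
      exact ⟨rfl, rfl⟩
    · have h7 : 0 < c t := Nat.pos_of_ne_zero ht
      have h8 := (ih (j - c t) (by push_cast at hj; omega) (by omega)).2
      rwa [h1, h2] at h8

theorem rank_iff (hF : IsFamily A c D) (hneg : NoNegative T R) (n : ℤ) :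
    (∀ j : ℤ, j ≤ n → RankFormulaM Q T R L j) ↔ ∀ j : ℤ, j ≤ n → RankFormulaN Q T R L j := by
  constructor
  · intro hM j hj
    exact rankN_of hQ h hT hR hL hfin hexpT hexpR hF hneg hM (j.toNat + 1) j (by omega) hj
  · intro hN j hj
    exact rankM_of hQ h hT hR hL hfin hexpT hexpR j fun t => hN _ (by omega)

end

/-- **The rank formula for `A × Z` and for `Z`.** -/
theorem rankReduces {P : ℚ[X] → Prop} {q : ℕ} (hq : 1 < q) {I : Type} {F : I → ℤ[X]}
    (hG : Good P q F) : RankReduces P q F := by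
  intro K _ _ A s hA T R L _ _ _ _ hT hpure hR hL hfin hneg n
  obtain ⟨J, hJ, c, D, E', hF, hdual, hQ, hmain⟩ := exists_classes hq hG hA
  refine rank_iff hQ hdual hT.rel hR.rel hL hfin (fun i j m hm => ?_) (fun i j m hm => ?_) hF hneg n
  · exact (hmain T hT.rel hT.degree hT.eigenvalues i j m (genM_of_inv (hpure i j m hm))).1
  · exact (hmain R hR.rel hR.degree hR.eigenvalues i j m hm).1

end Pool.Agent.Q64.L
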