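import Mathlib
import Pool.Agent.Q64.L.ClDefs
import Pool.Agent.Q64.L.Iff

/-!
# Classes of cycles and Galois invariants for `A × Z` and for `Z`
-/

set_option autoImplicit false
set_option linter.unusedSectionVars false

namespace Pool.Agent.Q64.L

open Module Polynomial Pool.Agent.Y156.L
open scoped TensorProduct

section nat

variable {L : Type} [Field L] {V : Type} [AddCommGroup V] [Module L V] (G : Submodule ℤ V)

theorem naturalMap_tmul (l : L) (g : G) : naturalMap (L := L) G (l ⊗ₜ g) = l • (g : V) := by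
  simp [naturalMap]

theorem range_naturalMap : LinearMap.range (naturalMap (L := L) G) =
    Submodule.span L (G : Set V) := by
  apply le_antisymm
  · rintro _ ⟨y, rfl⟩
    induction y using TensorProduct.induction_on with
    | zero => rw [map_zero]; exact Submodule.zero_mem _
    | tmul l g =>
      rw [naturalMap_tmul]
      exact Submodule.smul_mem _ _ (Submodule.subset_span g.2)
    | add x y hx hy => rw [map_add]; exact Submodule.add_mem _ hx hy
  · refine Submodule.span_le.2 fun g hg => ⟨1 ⊗ₜ ⟨g, hg⟩, ?_⟩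
    rw [naturalMap_tmul, one_smul]

variable {V' : Type} [AddCommGroup V'] [Module L V'] {G' : Submodule ℤ V'}

/-- Compatibility with a map of groups. -/
theorem naturalMap_lTensor (u : G →ₗ[ℤ] G') (f : V → V') (hf0 : f 0 = 0)
    (hfa : ∀ x y, f (x + y) = f x + f y) (hfl : ∀ (l : L) x, f (l • x) = l • f x)
    (h : ∀ g : G, (u g : V') = f g) (y : L ⊗[ℤ] G) :
    naturalMap (L := L) G' (u.lTensor L y) = f (naturalMap (L := L) G y) := by
  induction y using TensorProduct.induction_on with
  | zero => rw [map_zero, map_zero, map_zero, hf0]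
  | tmul l g => rw [LinearMap.lTensor_tmul, naturalMap_tmul, naturalMap_tmul, h, hfl]
  | add x y hx hy => rw [map_add, map_add, map_add, hx, hy, hfa]

end nat

theorem nsmul_cancel (L : Type) [Field L] [CharZero L] {V : Type} [AddCommGroup V] [Module L V]
    {a : ℕ} (ha : 0 < a) {x y : V} (h : a • x = a • y) : x = y := by
  have h1 : (a : L) ≠ 0 := by exact_mod_cast ha.ne'
  rw [← Nat.cast_smul_eq_nsmul L, ← Nat.cast_smul_eq_nsmul L a y] at h
  have h2 := congrArg (fun z => (a : L)⁻¹ • z) h
  simpa only [smul_smul, inv_mul_cancel₀ h1, one_smul] using h2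

theorem mem_of_nsmul {L : Type} [Field L] [CharZero L] {V : Type} [AddCommGroup V] [Module L V]
    {a : ℕ} (ha : 0 < a) {W : Submodule L V} {x : V} (h : a • x ∈ W) : x ∈ W := by
  have h1 : (a : L) ≠ 0 := by exact_mod_cast ha.ne'
  have h2 := W.smul_mem (a : L)⁻¹ h
  rwa [← Nat.cast_smul_eq_nsmul L, smul_smul, inv_mul_cancel₀ h1, one_smul] at h2

variable {K : Type} [Field K] [CharZero K] {A : AbelianData K}

section main

variable {R : RelData A} {L : Type} [Field L] [CharZero L] [Module L R.N] [Module L R.M]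
  {S : ClassData R L} {Q : ℕ} {J : Type} [Fintype J] {c : J → ℕ} {D E : J → A.CH}

theorem IsClassData.common (hS : IsClassData S Q) (h : IsDual A c D E) (j : ℤ) :
    ∃ a : ℕ, 0 < a ∧ (∀ t, ∀ n ∈ S.cycN (j - c t), a • R.times (D t) n ∈ S.cycM j) ∧
      ∀ t, ∀ m ∈ S.cycM j, a • R.pair (E t) m ∈ S.cycN (j - c t) := by
  classical
  choose a ha ha' using fun t => hS.mul_cyc (h.left t) (j - c t)
  choose b hb hb' using fun t =>
    hS.push_cyc (c := c t) (Nat.add_sub_of_le (h.le t)) (h.right t) j
  refine ⟨(∏ t, a t) * ∏ t, b t, Nat.mul_pos (Finset.prod_pos fun t _ => ha t)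
    (Finset.prod_pos fun t _ => hb t), fun t n hn => ?_, fun t m hm => ?_⟩
  · obtain ⟨e, he⟩ : a t ∣ (∏ t, a t) * ∏ t, b t :=
      (Finset.dvd_prod_of_mem a (Finset.mem_univ t)).mul_right _
    have h1 := ha' t n hn
    rw [sub_add_cancel] at h1
    rw [he, mul_comm, mul_smul]
    exact (S.cycM j).smul_of_tower_mem e h1
  · obtain ⟨e, he⟩ : b t ∣ (∏ t, a t) * ∏ t, b t :=
      (Finset.dvd_prod_of_mem b (Finset.mem_univ t)).mul_left _
    have h1 := hb' t m hm
    rw [he, mul_comm, mul_smul]
    exact (S.cycN _).smul_of_tower_mem e h1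

/-- The map `n ↦ a D n`. -/
def mulMap {j : ℤ} {t : J} {a : ℕ} (h : ∀ n ∈ S.cycN (j - c t), a • R.times (D t) n ∈ S.cycM j) :
    S.cycN (j - c t) →ₗ[ℤ] S.cycM j where
  toFun := fun n => ⟨a • R.times (D t) n, h n n.2⟩
  map_add' := fun x y => by
    apply Subtype.ext
    change a • R.times (D t) ((x : R.N) + y) = a • R.times (D t) x + a • R.times (D t) y
    rw [map_add, smul_add]
  map_smul' := fun r x => by
    apply Subtype.ext
    change a • R.times (D t) (r • (x : R.N)) = r • a • R.times (D t) x
    rw [map_zsmul, smul_comm]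

/-- The map `m ↦ a push (E m)`. -/
def pushMap {j : ℤ} {t : J} {a : ℕ} (h : ∀ m ∈ S.cycM j, a • R.pair (E t) m ∈ S.cycN (j - c t)) :
    S.cycM j →ₗ[ℤ] S.cycN (j - c t) where
  toFun := fun m => ⟨a • R.pair (E t) m, h m m.2⟩
  map_add' := fun x y => by
    apply Subtype.ext
    change a • R.pair (E t) ((x : R.M) + y) = a • R.pair (E t) x + a • R.pair (E t) y
    rw [map_add, smul_add]
  map_smul' := fun r x => by
    apply Subtype.ext
    change a • R.pair (E t) (r • (x : R.M)) = r • a • R.pair (E t) x
    rw [map_zsmul, smul_comm]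

theorem tateIso_iff (hF : IsFamily A c D) (h : IsDual A c D E) (hQ : Q ≠ 0)
    (hR : IsRel Q R) (hL : IsLinear R L) (hS : IsClassData S Q)
    (hexp : ∀ (i j : ℤ) (m : R.M), R.InvM Q i j m → m = ∑ t, R.times (D t) (R.pair (E t) m))
    (j : ℤ) : TateIso (S.cycM j) (S.galM j) ↔
      ∀ k : ℕ, k ≤ A.dim → TateIso (S.cycN (j - k)) (S.galN (j - k)) := by
  classical
  obtain ⟨a, ha, hu, hv⟩ := hS.common h j
  have haL : (a : L) ≠ 0 := by exact_mod_cast ha.ne'
  have hmulL : ∀ (x : A.CH) (t : L) (n : R.N), R.times x (t • n) = t • R.times x n := hL.mul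
  have hpushL : ∀ (x : A.CH) (t : L) (m : R.M), R.pair x (t • m) = t • R.pair x m := hL.push
  have hexp' : ∀ m ∈ S.galM j, m = ∑ t, R.times (D t) (R.pair (E t) m) := fun m hm =>
    hexp _ _ m (hS.frob j m hm)
  have hvu : ∀ t (n : S.cycN (j - c t)), pushMap (hv t) (mulMap (hu t) n) = (a * a) • n := by
    intro t n
    apply Subtype.ext
    change a • R.pair (E t) (a • R.times (D t) n) = (a * a) • (n : R.N)
    rw [map_nsmul, dualpair hR h t t, if_pos rfl, smul_smul]
  have huv : ∀ m : S.cycM j, ∑ t, mulMap (hu t) (pushMap (hv t) m) = (a * a) • m := by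
    intro m
    apply Subtype.ext
    rw [AddSubmonoidClass.coe_finsetSum]
    change ∑ t, a • R.times (D t) (a • R.pair (E t) m) = (a * a) • (m : R.M)
    have h1 := hexp' m (hS.cyc_gal j m m.2)
    conv_rhs => rw [h1]
    rw [Finset.smul_sum]
    refine Finset.sum_congr rfl fun t _ => ?_
    rw [map_nsmul, smul_smul]
  have haa : 0 < a * a := Nat.mul_pos ha ha
  have hn1 : ∀ t (y : L ⊗[ℤ] S.cycN (j - c t)),
      naturalMap (S.cycM j) ((mulMap (hu t)).lTensor L y) =
        a • R.times (D t) (naturalMap (S.cycN (j - c t)) y) := by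
    intro t y
    refine naturalMap_lTensor _ (mulMap (hu t)) (fun n => a • R.times (D t) n) (by simp)
      (fun x y => by rw [map_add, smul_add]) (fun l x => ?_) (fun g => rfl) y
    rw [hmulL, smul_comm]
  have hn2 : ∀ t (y : L ⊗[ℤ] S.cycM j),
      naturalMap (S.cycN (j - c t)) ((pushMap (hv t)).lTensor L y) =
        a • R.pair (E t) (naturalMap (S.cycM j) y) := by
    intro t y
    refine naturalMap_lTensor _ (pushMap (hv t)) (fun n => a • R.pair (E t) n) (by simp)
      (fun x y => by rw [map_add, smul_add]) (fun l x => ?_) (fun g => rfl) y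
    rw [hpushL, smul_comm]
  have hl1 : ∀ t (y : L ⊗[ℤ] S.cycN (j - c t)),
      (pushMap (hv t)).lTensor L ((mulMap (hu t)).lTensor L y) = (a * a) • y := by
    intro t y
    rw [← LinearMap.lTensor_comp_apply]
    induction y using TensorProduct.induction_on with
    | zero => rw [map_zero, smul_zero]
    | tmul l g =>
      rw [LinearMap.lTensor_tmul, LinearMap.comp_apply, hvu, ← TensorProduct.tmul_smul]
    | add x y hx hy => rw [map_add, hx, hy, smul_add]
  have hl2 : ∀ y : L ⊗[ℤ] S.cycM j,
      ∑ t, (mulMap (hu t)).lTensor L ((pushMap (hv t)).lTensor L y) = (a * a) • y := by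
    intro y
    induction y using TensorProduct.induction_on with
    | zero => simp
    | tmul l g =>
      have h1 : ∀ t, (mulMap (hu t)).lTensor L ((pushMap (hv t)).lTensor L (l ⊗ₜ[ℤ] g)) =
          l ⊗ₜ[ℤ] (mulMap (hu t) (pushMap (hv t) g)) := fun t => by
        rw [LinearMap.lTensor_tmul, LinearMap.lTensor_tmul]
      rw [Finset.sum_congr rfl fun t _ => h1 t, ← TensorProduct.tmul_sum, huv,
        ← TensorProduct.tmul_smul]
    | add x y hx hy =>
      simp only [map_add, Finset.sum_add_distrib]
      rw [hx, hy, smul_add]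
  constructor
  · rintro ⟨h1, h2, h3⟩ k hk
    obtain ⟨t, rfl⟩ := hF.exists_eq k hk
    refine ⟨?_, ?_, ?_⟩
    · have h4 : Module.Finite ℤ (S.cycM j) := Module.Finite.iff_fg.2 h1
      refine Module.Finite.iff_fg.1 (Module.Finite.of_injective (mulMap (hu t)) fun x y hxy => ?_)
      have h5 := congrArg (pushMap (hv t)) hxy
      rw [hvu, hvu] at h5
      apply Subtype.ext
      exact nsmul_cancel ℚ haa (congrArg Subtype.val h5)
    · rw [injective_iff_map_eq_zero]
      intro y hy
      have h4 : (mulMap (hu t)).lTensor L y = 0 := by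
        refine (injective_iff_map_eq_zero _).1 h2 _ ?_
        rw [hn1, hy, map_zero, smul_zero]
      have h5 := hl1 t y
      rw [h4, map_zero] at h5
      exact nsmul_cancel L haa (by rw [← h5, smul_zero])
    · apply le_antisymm
      · rintro _ ⟨y, rfl⟩
        have h4 : a • R.times (D t) (naturalMap (S.cycN (j - c t)) y) ∈ S.galM j := by
          rw [← hn1, ← h3]
          exact ⟨_, rfl⟩
        have h5 := hS.push_gal (Nat.add_sub_of_le (h.le t)) (h.right t) j _ (mem_of_nsmul ha h4)
        have h6 : R.push (E t) (R.times (D t) (naturalMap (S.cycN (j - c t)) y)) =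
            naturalMap (S.cycN (j - c t)) y := by
          change R.pair (E t) _ = _
          rw [dualpair hR h t t, if_pos rfl]
        rwa [h6] at h5
      · intro w hw
        have h4 := hS.mul_gal (h.left t) (j - c t) w hw
        rw [sub_add_cancel, ← h3] at h4
        obtain ⟨y, hy⟩ := h4
        refine mem_of_nsmul ha ⟨(pushMap (hv t)).lTensor L y, ?_⟩
        have h5 : R.pair (E t) (R.mul (D t) w) = w := by
          change R.pair (E t) (R.times (D t) w) = w
          rw [dualpair hR h t t, if_pos rfl]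
        rw [hn2, hy, h5]
  · intro h0
    refine ⟨?_, ?_, ?_⟩
    · have h4 : ∀ t, Module.Finite ℤ (S.cycN (j - c t)) := fun t =>
        Module.Finite.iff_fg.2 (h0 (c t) (h.le t)).1
      refine Module.Finite.iff_fg.1 (Module.Finite.of_injective
        (LinearMap.pi fun t => pushMap (hv t)) fun x y hxy => ?_)
      have h5 : ∀ t, pushMap (hv t) x = pushMap (hv t) y := fun t => congrFun hxy t
      have h6 := huv x
      rw [Finset.sum_congr rfl fun t _ => by rw [h5 t], huv] at h6
      apply Subtype.ext
      exact (nsmul_cancel ℚ haa (congrArg Subtype.val h6)).symm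
    · rw [injective_iff_map_eq_zero]
      intro y hy
      have h4 : ∀ t, (pushMap (hv t)).lTensor L y = 0 := by
        intro t
        refine (injective_iff_map_eq_zero _).1 (h0 (c t) (h.le t)).2.1 _ ?_
        rw [hn2, hy, map_zero, smul_zero]
      have h5 := hl2 y
      rw [Finset.sum_eq_zero fun t _ => by rw [h4 t, map_zero]] at h5
      exact nsmul_cancel L haa (by rw [← h5, smul_zero])
    · apply le_antisymm
      · rw [range_naturalMap]
        exact Submodule.span_le.2 fun m hm => hS.cyc_gal j m hm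
      · intro m hm
        have h4 : ∀ t, R.pair (E t) m ∈ LinearMap.range (naturalMap (L := L)
            (S.cycN (j - c t))) := by
          intro t
          rw [(h0 (c t) (h.le t)).2.2]
          exact hS.push_gal (Nat.add_sub_of_le (h.le t)) (h.right t) j m hm
        choose y hy using h4
        refine mem_of_nsmul ha ?_
        rw [hexp' m hm, Finset.smul_sum]
        refine Submodule.sum_mem _ fun t _ => ⟨(mulMap (hu t)).lTensor L (y t), ?_⟩
        rw [hn1, hy]

end main

end Pool.Agent.Q64.L
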