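import Mathlib
import Pool.Agent.Q64.L.Cl

/-!
# Varieties over finitely generated fields: the theorems
-/

set_option autoImplicit false
set_option linter.unusedSectionVars false

namespace Pool.Agent.Q64.L

open Module Polynomial Pool.Agent.Y156.L

variable {K : Type} [Field K] [CharZero K] {A : AbelianData K}

theorem numEqHom_iff {J : Type} [Fintype J] {c : J → ℕ} {D E : J → A.CH} (hF : IsFamily A c D)
    (h : IsDual A c D E) {Q : ℕ} {T R : RelData A} {ρ : Regulator T R} (hT : IsCycles ρ Q)
    (hexp : ∀ (i j : ℤ) (m : R.M), R.InvM Q i j m → m = ∑ t, R.times (D t) (R.pair (E t) m))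
    {B : CupProduct T} (hB : IsCupProduct B) (d j : ℤ) :
    NumEqHomM B d j ↔ ∀ k : ℕ, k ≤ A.dim → NumEqHomN B d (j - k) := by
  classical
  have hmul : ∀ (x : A.CH) (n : T.N), ρ.cM (T.times x n) = R.times x (ρ.cN n) :=
    hT.regulator.mul
  have hpush : ∀ (x : A.CH) (m : T.M), ρ.cN (T.pair x m) = R.pair x (ρ.cM m) :=
    hT.regulator.push
  have hexpT : ∀ (m : T.M), T.DegM (2 * j) j m → m = ∑ t, T.times (D t) (T.pair (E t) m) := by
    intro m hm
    have h1 := hexp _ _ _ (hT.frob j m hm)
    change ρ.cM m = ∑ t, R.times (D t) (R.pair (E t) (ρ.cM m)) at h1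
    have h2 : ρ.cM (m - ∑ t, T.times (D t) (T.pair (E t) m)) = 0 := by
      rw [map_sub, map_sum, sub_eq_zero]
      conv_lhs => rw [h1]
      exact Finset.sum_congr rfl fun t _ => by rw [hmul, hpush]
    exact sub_eq_zero.1 (hT.injective _ h2)
  have hc : ∀ t, ((A.dim - c t : ℕ) : ℤ) = A.dim - c t := fun t => Nat.cast_sub (h.le t)
  have hpt : ∀ t (n : T.N), T.pair (E t) (T.times (D t) n) = n := by
    intro t n
    have h1 := hT.graded.push_mul (E t) (D t) n
    change T.pair (E t) (T.times (D t) n) = A.deg (E t * D t) • n at h1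
    rw [h1, mul_comm, h.eq, one_smul]
  constructor
  · intro h0 k hk x hx
    obtain ⟨t, rfl⟩ := hF.exists_eq k hk
    have h1 : T.mul (D t) x = 0 := by
      refine h0 _ ⟨?_, fun y hy => ?_⟩
      · have h2 := hT.graded.mul_mem (h.left t) hx.1
        rwa [show 2 * (j - (c t : ℤ)) + 2 * c t = 2 * j by ring, sub_add_cancel] at h2
      · rw [hB.left]
        refine hx.2 _ ?_
        have h2 := hT.graded.push_mem (c := A.dim - c t) (Nat.sub_add_cancel (h.le t))
          (h.left t) hy
        rwa [hc, show 2 * ((A.dim : ℤ) + d - j) - 2 * (A.dim - c t) = 2 * (d - (j - c t)) by ring,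
          show (A.dim : ℤ) + d - j - (A.dim - c t) = d - (j - c t) by ring] at h2
    have h2 := hpt t x
    change T.times (D t) x = 0 at h1
    rw [h1, map_zero] at h2
    exact h2.symm
  · intro h0 x hx
    rw [hexpT x hx.1]
    refine Finset.sum_eq_zero fun t _ => ?_
    have h1 : T.push (E t) x = 0 := by
      refine h0 (c t) (h.le t) _ ⟨?_, fun y hy => ?_⟩
      · have h2 := hT.graded.push_mem (c := c t) (Nat.add_sub_of_le (h.le t)) (h.right t) hx.1
        rwa [show 2 * j - 2 * (c t : ℤ) = 2 * (j - c t) by ring] at h2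
      · rw [← hB.right]
        refine hx.2 _ ?_
        have h2 := hT.graded.mul_mem (h.right t) hy
        rwa [hc, show 2 * (d - (j - (c t : ℤ))) + 2 * (A.dim - c t) = 2 * (A.dim + d - j) by ring,
          show d - (j - (c t : ℤ)) + (A.dim - c t) = A.dim + d - j by ring] at h2
    change T.pair (E t) x = 0 at h1
    rw [h1, map_zero]

variable {P : ℚ[X] → Prop} {q : ℕ} (hq : 1 < q) {I : Type} {F : I → ℤ[X]} (hG : Good P q F)

include hq hG

theorem tateIsoReduces : TateIsoReduces P q F := by
  intro K _ _ A s hA R L _ _ _ _ hR hpd hP hL S hS j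
  obtain ⟨J, hJ, c, D, E', hF, hdual, hQ, hmain⟩ := exists_classes hq hG hA
  exact tateIso_iff hF hdual hQ hR hL hS
    (fun i j m hm => (hmain R hR hpd hP i j m (genM_of_inv hm)).1) j

theorem numHomReduces : NumHomReduces P q F := by
  intro K _ _ A s hA R hR hpd hP T ρ hT B hB d j
  obtain ⟨J, hJ, c, D, E', hF, hdual, hQ, hmain⟩ := exists_classes hq hG hA
  exact numEqHom_iff hF hdual hT
    (fun i j m hm => (hmain R hR hpd hP i j m (genM_of_inv hm)).1) hB d j

end Pool.Agent.Q64.L
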