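import Mathlib
import Pool.Agent.Q64.L.Iff
import Pool.Agent.Q64.L.Stmt

/-!
# The statements hold for good polynomials
-/

set_option autoImplicit false
set_option linter.unusedSectionVars false

namespace Pool.Agent.Q64.L

open Module Polynomial Pool.Agent.Y156.L

/-- The bidegrees of cohomology and homology. -/
theorem reindex (d : ℕ) (X : ℤ → ℤ → Prop) (a b : ℤ) :
    (∀ k : ℕ, k ≤ d → X (2 * d - a - 2 * k) (d - b - k)) ↔
      ∀ l : ℕ, l ≤ d → X (-(a - 2 * l)) (-(b - l)) := by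
  constructor
  · intro h l hl
    have h1 := h (d - l) (Nat.sub_le _ _)
    rw [Nat.cast_sub hl] at h1
    rwa [show (2 * (d : ℤ) - a - 2 * (d - l)) = -(a - 2 * l) by ring,
      show ((d : ℤ) - b - (d - l)) = -(b - l) by ring] at h1
  · intro h k hk
    have h1 := h (d - k) (Nat.sub_le _ _)
    rw [Nat.cast_sub hk] at h1
    rwa [show (-(a - 2 * ((d : ℤ) - k))) = 2 * d - a - 2 * k by ring,
      show (-(b - ((d : ℤ) - k))) = d - b - k by ring] at h1

/-- The conjunction of two or three statements. -/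
theorem forall_and₂ {d : ℕ} {X Y : ℕ → Prop} :
    ((∀ l, l ≤ d → X l) ∧ ∀ l, l ≤ d → Y l) ↔ ∀ l, l ≤ d → X l ∧ Y l :=
  ⟨fun h l hl => ⟨h.1 l hl, h.2 l hl⟩, fun h => ⟨fun l hl => (h l hl).1, fun l hl => (h l hl).2⟩⟩

variable {P : ℚ[X] → Prop} {q : ℕ} (hq : 1 < q) {I : Type} {F : I → ℤ[X]} (hG : Good P q F)

include hq hG

theorem tbReduces : TBReduces P q F := by
  intro K _ _ A s hA
  obtain ⟨J, hJ, c, D, hF, h1, h2⟩ := exists_main hq hG hA
  refine ⟨J, hJ, c, D, hF, fun T R ρ hT hpure hR hρ => ?_⟩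
  obtain ⟨h3, h4, h5⟩ := h1 R hR.rel hR.degree hR.eigenvalues
  obtain ⟨h6, h7⟩ := h2 T hT.rel hT.degree hT.eigenvalues hpure
  refine ⟨h6, h3, fun a b => ?_⟩
  unfold TateBeilinsonTimes TateBeilinson
  rw [h7 R ρ hρ, h5 T ρ hT.rel hρ, h4, reindex A.dim (fun i j => InjectiveN ρ i j) a b,
    reindex A.dim (fun i j => OntoN ρ (q ^ s) i j) a b,
    reindex A.dim (fun i j => SemisimpleN (q ^ s) R i j) a b, forall_and₂, forall_and₂]

theorem clReduces : ClReduces P q F := by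
  intro K _ _ A s hA
  obtain ⟨J, hJ, c, D, hF, h1, h2⟩ := exists_main hq hG hA
  refine ⟨J, hJ, c, D, hF, fun T R ρ hT hpure hR hρ => ?_⟩
  obtain ⟨h3, h4, h5⟩ := h1 R hR.rel hR.degree hR.eigenvalues
  obtain ⟨h6, h7⟩ := h2 T hT.rel hT.degree hT.eigenvalues hpure
  refine ⟨h6, h3, fun b => ?_⟩
  have h8 : ∀ l : ℕ, (-(2 * (b - (l : ℤ)))) = -(2 * b - 2 * l) := fun l => by ring
  unfold ClBijectiveTimes ClBijective
  simp only [h8]
  rw [h7 R ρ hρ, h5 T ρ hT.rel hρ, reindex A.dim (fun i j => InjectiveN ρ i j) (2 * b) b,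
    reindex A.dim (fun i j => OntoN ρ (q ^ s) i j) (2 * b) b, forall_and₂]

theorem clOntoReduces : ClOntoReduces P q F := by
  intro K _ _ A s hA
  obtain ⟨J, hJ, c, D, hF, h1, h2⟩ := exists_main hq hG hA
  refine ⟨J, hJ, c, D, hF, fun R hR => ?_⟩
  obtain ⟨h3, h4, h5⟩ := h1 R hR.rel hR.degree hR.eigenvalues
  refine ⟨h3, fun T ρ hT hρ b => ?_⟩
  have h8 : ∀ l : ℕ, (-(2 * (b - (l : ℤ)))) = -(2 * b - 2 * l) := fun l => by ring
  unfold ClOntoTimes ClOnto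
  simp only [h8]
  rw [h5 T ρ hT hρ, reindex A.dim (fun i j => OntoN ρ (q ^ s) i j) (2 * b) b]

theorem semisimpleReduces : SemisimpleReduces P q F := by
  intro K _ _ A s hA R hR a b
  obtain ⟨J, hJ, c, D, hF, h1, h2⟩ := exists_main hq hG hA
  obtain ⟨h3, h4, h5⟩ := h1 R hR.rel hR.degree hR.eigenvalues
  rw [h4, reindex A.dim (fun i j => SemisimpleN (q ^ s) R i j) a b]

theorem bReduces : BReduces P q F := by
  intro K _ _ A s hA
  obtain ⟨J, hJ, c, D, hF, h1, h2⟩ := exists_main hq hG hA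
  refine ⟨J, hJ, c, D, hF, fun T R ρ hT hpure hR hρ => ?_⟩
  obtain ⟨h3, h4, h5⟩ := h1 R hR.rel hR.degree hR.eigenvalues
  obtain ⟨h6, h7⟩ := h2 T hT.rel hT.degree hT.eigenvalues hpure
  refine ⟨h6, h3, fun i => ?_⟩
  have h8 : ∀ k : ℕ, (2 * (i - (k : ℤ))) = 2 * i - 2 * k := fun k => by ring
  unfold StatementBTimes StatementB
  simp only [h8]
  rw [h7 R ρ hρ, h5 T ρ hT.rel hρ, h4, forall_and₂, forall_and₂]

theorem tateHigherReduces : TateHigherReduces P q F := by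
  intro K _ _ A s hA
  obtain ⟨J, hJ, c, D, hF, h1, h2⟩ := exists_main hq hG hA
  refine ⟨J, hJ, c, D, hF, fun R hR => ?_⟩
  obtain ⟨h3, h4, h5⟩ := h1 R hR.rel hR.degree hR.eigenvalues
  exact ⟨h3, h5⟩

end Pool.Agent.Q64.L
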