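import Mathlib
import Pool.Agent.Y1.CT.TypeDefs
import Pool.Agent.Q64.L.ClDefs

/-!
# Ordinary Frobenius elements at all places
-/

set_option autoImplicit false

namespace Pool.Agent.Q64.L

open NumberField Polynomial Pool.Agent.Y1.CT Pool.Agent.Y156.L

/-- The property `P q f` of a prime power `q` and polynomials `f i` holds for **all** prime numbers
`p`, all isomorphisms `ν` of the algebraic closure of `ℚ_p` with `ℂ`, all Weil numbers `π i` for
`q = p ^ a` (any `a > 0`) which generate the fields `K i` and have the slopes `(a + κ) / 2` at the
embeddings in the CM type `Φ i` and `(a - κ) / 2` at the other ones, for a number `κ ≠ 0` (`κ = a`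
for ordinary Weil numbers), and all monic polynomials `f i` whose complex roots are conjugates
of `π i`. -/
def ForAllPlaces {I : Type} (K : I → Type) [∀ i, Field (K i)] [∀ i, NumberField (K i)]
    [∀ i, IsCMField (K i)] (P : ℕ → (I → ℤ[X]) → Prop) (Φ : ∀ i, Set (K i →+* ℂ)) : Prop :=
  ∀ (p : ℕ) [Fact p.Prime] (ν : PadicAlgCl p ≃+* ℂ), ForAllTypes ν K (fun _ _ => 1) P Φ

/-- `NumHomReducesZero P q F`: let `k` be a field with a place whose residue field has `q ^ s`
elements, and `A` an abelian variety over `k` with good reduction there and sufficiently many
complex multiplications, so that the Frobenius endomorphism of the reduction is the reduction of an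
endomorphism `A.frob` of `A`; the eigenvalues of Frobenius are `s`-th powers of roots of the `F i`.
Here `A.CH` is the ring generated by the symmetric divisors on `A`, on which `A.frob` operates as
multiplication by `q ^ (s c)` in codimension `c`. Then (`IsAbelian`) for every smooth projective
variety `Z` over `k` of dimension `d`, with the `ℓ`-adic cohomology `R` of `Z` and `A × Z`, on which
the Frobenius element of the place satisfies polynomials with the property `P`, the cycles modulo
homological equivalence `T` with the intersection products, and all `j`: numerical and homological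
equivalence coincide for the cycles of codimension `j` on `A × Z` if and only if they coincide for the
cycles of codimension `j - k`, `0 ≤ k ≤ dim A`, on `Z`. -/
def NumHomReducesZero (P : ℚ[X] → Prop) (q : ℕ) {I : Type} (F : I → ℤ[X]) : Prop :=
  ∀ (K : Type) [Field K] [CharZero K] (A : AbelianData K) (s : ℕ), IsAbelian A q s F →
    ∀ R : RelData A, IsRel (q ^ s) R → PreservesDegree R → EigenvaluesIn P R →
      ∀ (T : RelData A) (ρ : Regulator T R), IsCycles ρ (q ^ s) →
      ∀ B : CupProduct T, IsCupProduct B → ∀ d j : ℤ,
        NumEqHomM B d j ↔ ∀ k : ℕ, k ≤ A.dim → NumEqHomN B d (j - k)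

end Pool.Agent.Q64.L
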