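import Mathlib
import Pool.Agent.Q64.L.InstC
import Pool.Agent.Q64.L.UnifDefs
import Pool.Agent.Y1.TS.Angle

/-!
# The count of the exceptional CM types, uniformly in all places
-/

set_option autoImplicit false

namespace Pool.Agent.Q64.L

open Polynomial NumberField Module Pool.Agent.H204R3.CM Pool.Agent.H977R3.CM Pool.Agent.TH170
  Pool.Agent.Y1.KN Pool.Agent.Y1.CT Pool.Agent.Q64.CT

open Classical in
/-- The count for any property which good families have, for all places. -/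
theorem countU :
    ∃ C : ℝ, 0 ≤ C ∧ ∀ (I : Type) [Fintype I]
      (K : I → Type) [∀ i, Field (K i)] [∀ i, NumberField (K i)] [∀ i, IsCMField (K i)]
      (g q : I → ℕ) (D : I → ℝ), PairwiseIndep K →
      (∀ i, finrank ℚ (K i) = 2 * g i) →
      (∀ i, q i ∣ g i ∧ (q i = 1 ∨ (q i).Prime)) → (∀ i, 1 ≤ D i) →
      (∀ (i : I) (F : IntermediateField ℚ (K i)), IsCMField F → IsGalois ℚ F →
        ¬ IsAbelianGalois ℚ F → (finrank ℚ F : ℝ) ≤ D i) →
      ∀ P : ℕ → (I → ℤ[X]) → Prop,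
      (∀ (Q : ℕ) (f : I → ℤ[X]), 1 < Q → Good (UnrelatedRoots K) Q f → P Q f) →
      (({Φ : ∀ i, Set (K i →+* ℂ) | (∀ i, IsCMType (Φ i)) ∧ ¬ ForAllPlaces K P Φ}.ncard : ℕ) : ℝ) ≤
        2 ^ (∑ i, g i) * ∑ i, C * ((1 + Real.log (2 * g i)) ^ 16 *
          min ((numCMSubfields (K i) : ℝ) ^ 2 * D i ^ (1 / 4 : ℝ) / √(g i)) (√(g i) / q i)) := by
  obtain ⟨C, hC0, hC⟩ := families_holds
  refine ⟨C, hC0, ?_⟩
  intro I _ K _ _ _ g q D hind hg hq hD hDF P hP
  have h1 := hC I K (fun _ _ => 1) (fun _ => 1) g q (fun _ _ => rfl) (fun _ => one_ne_zero)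
    (fun _ _ => by simp) hg hq (ForAllPlaces K P) (fun Φ hΦ hnd => by
      intro p _ ν a π f ha hπ hf
      refine hP (p ^ a) f (Nat.one_lt_pow ha.ne' (Fact.out : p.Prime).one_lt)
        (good_unrelated ⟨fun i => (hf i).1, unrelated_one K, fun s hs ρ hρ => ?_⟩)
      exact exactPair_of_angle (Pool.Agent.Y1.TS.angle_types hind (fun _ _ => rfl) hΦ hnd hπ)
        (fun i => (hπ i).weil) f hf s hs ρ hρ)
  refine h1.trans ?_
  refine mul_le_mul_of_nonneg_left ?_ (by positivity)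
  refine Finset.sum_le_sum fun i _ => ?_
  rw [Nat.cast_one, one_pow, mul_one]
  refine mul_le_mul_of_nonneg_left ?_ hC0
  unfold rate
  have hgi : (1 : ℝ) ≤ 2 * g i := by
    have h1 : 0 < finrank ℚ (K i) := finrank_pos
    rw [hg i] at h1
    have h2 : 1 ≤ 2 * g i := h1
    exact_mod_cast h2
  have hlog : 0 ≤ Real.log (2 * (g i : ℝ)) := Real.log_nonneg hgi
  refine mul_le_mul_of_nonneg_left ?_ (by positivity)
  refine min_le_min_right _ ?_
  exact div_le_div_of_nonneg_right (weight_estimate_holds (K i) (D i) (hD i) (hDF i))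
    (Real.sqrt_nonneg _)

end Pool.Agent.Q64.L
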